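import Pool.Agent.Y763.SJ.Stm

/-! Project SJ: almost periods of absolutely convergent series (written by helper864; the first
lemma is adapted from `Pool.Agent.Y770.AP.rel_dense`). -/

set_option autoImplicit false

open Complex Filter Topology Set MeasureTheory Metric

namespace Pool.Agent.Y763.SJ

lemma ap_norm (θ t : ℝ) : ‖cexp (I * θ * (t : ℝ))‖ = 1 := by
  have h : I * (θ : ℂ) * ((t : ℝ) : ℂ) = ((θ * t : ℝ) : ℂ) * I := by
    push_cast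
    ring
  rw [h, Complex.norm_exp_ofReal_mul_I]

lemma ap_add (θ s t : ℝ) :
    cexp (I * θ * (s + t : ℝ)) = cexp (I * θ * (s : ℝ)) * cexp (I * θ * (t : ℝ)) := by
  rw [← Complex.exp_add]
  congr 1
  push_cast
  ring

/-- simultaneous almost periods are relatively dense -/
lemma ap_dense {κ : Type} [Fintype κ] (θ : κ → ℝ) {δ : ℝ} (hδ : 0 < δ) :
    ∃ L : ℝ, 0 < L ∧ ∀ a : ℝ, ∃ T ∈ Icc a (a + L), ∀ k, ‖cexp (I * θ k * (T : ℝ)) - 1‖ ≤ δ := by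
  classical
  set φ : ℝ → (κ → ℂ) := fun t k => cexp (I * θ k * (t : ℝ)) with hφ
  have hbd : Set.range φ ⊆ closedBall (0 : κ → ℂ) 1 := by
    rintro _ ⟨t, rfl⟩
    rw [mem_closedBall_zero_iff, pi_norm_le_iff_of_nonneg zero_le_one]
    intro k
    simp only [hφ]
    rw [ap_norm]
  have htb : TotallyBounded (Set.range φ) :=
    (isCompact_closedBall (0 : κ → ℂ) 1).totallyBounded.subset hbd
  obtain ⟨s, hs, hsf, hcov⟩ := finite_approx_of_totallyBounded htb δ hδ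
  have hc : ∀ y ∈ s, ∃ t : ℝ, φ t = y := fun y hy => hs hy
  choose! c hc using hc
  obtain ⟨R, hR⟩ : ∃ R : ℝ, ∀ y ∈ s, |c y| ≤ R := by
    obtain ⟨R, hR⟩ := (hsf.image fun y => |c y|).bddAbove
    exact ⟨R, fun y hy => hR ⟨y, hy, rfl⟩⟩
  have hR0 : 0 ≤ max R 0 := le_max_right _ _
  refine ⟨2 * max R 0 + 1, by linarith, fun a => ?_⟩
  have h1 : φ (a + max R 0) ∈ ⋃ y ∈ s, ball y δ := hcov ⟨_, rfl⟩
  simp only [Set.mem_iUnion] at h1
  obtain ⟨y, hy, hy2⟩ := h1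
  have h2 := abs_le.1 ((hR y hy).trans (le_max_left R 0))
  refine ⟨a + max R 0 - c y, ⟨by linarith [h2.2], by linarith [h2.1]⟩, fun k => ?_⟩
  rw [← hc y hy, mem_ball, dist_eq_norm] at hy2
  have h3 : ‖(φ (a + max R 0) - φ (c y)) k‖ ≤ δ := (norm_le_pi_norm _ k).trans hy2.le
  simp only [Pi.sub_apply, hφ] at h3
  have h4 : cexp (I * θ k * (a + max R 0 : ℝ)) =
      cexp (I * θ k * (a + max R 0 - c y : ℝ)) * cexp (I * θ k * (c y : ℝ)) := by
    rw [← ap_add, sub_add_cancel]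
  rw [h4, ← sub_one_mul, norm_mul, ap_norm, mul_one] at h3
  exact h3

theorem t_AP : S_AP := by
  intro ι c g hc ε hε
  classical
  have hs0 : 0 ≤ ∑' i, ‖c i‖ := tsum_nonneg fun i => norm_nonneg _
  -- the finite set
  obtain ⟨F, hF⟩ : ∃ F : Finset ι, ∑' i, ‖c i‖ - ∑ i ∈ F, ‖c i‖ ≤ ε / 4 := by
    have h1 := (hc.hasSum.eventually (lt_mem_nhds (show ∑' i, ‖c i‖ - ε / 4 < ∑' i, ‖c i‖ by
      linarith)))
    obtain ⟨F, hF⟩ := h1.exists
    exact ⟨F, by linarith⟩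
  have hFs : ∑ i ∈ F, ‖c i‖ ≤ ∑' i, ‖c i‖ := hc.sum_le_tsum F fun i _ => norm_nonneg _
  have hF0 : 0 ≤ ∑ i ∈ F, ‖c i‖ := Finset.sum_nonneg fun i _ => norm_nonneg _
  obtain ⟨δ, hδ0, hδ⟩ : ∃ δ : ℝ, 0 < δ ∧ δ * ∑ i ∈ F, ‖c i‖ ≤ ε / 2 := by
    refine ⟨ε / (2 * (1 + ∑ i ∈ F, ‖c i‖)), by positivity, ?_⟩
    rw [div_mul_eq_mul_div, div_le_iff₀ (by positivity)]
    nlinarith
  obtain ⟨L, hL, hL2⟩ := ap_dense (fun k : F => g k) hδ0
  refine ⟨L, hL, fun a => ?_⟩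
  obtain ⟨τ, hτ, hτ2⟩ := hL2 a
  refine ⟨τ, hτ, fun v => ?_⟩
  have hsum : ∀ u : ℝ, Summable fun i => c i * cexp (I * g i * (u : ℝ)) := by
    intro u
    refine Summable.of_norm ?_
    refine hc.congr fun i => ?_
    rw [norm_mul, ap_norm, mul_one]
  rw [← (hsum (v + τ)).tsum_sub (hsum v)]
  have hb : HasSum (fun i => 2 * ‖c i‖ + if i ∈ F then (δ - 2) * ‖c i‖ else 0)
      (2 * ∑' i, ‖c i‖ + ∑ i ∈ F, (δ - 2) * ‖c i‖) := by
    refine (hc.hasSum.mul_left 2).add ?_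
    have h1 : HasSum (fun i => if i ∈ F then (δ - 2) * ‖c i‖ else 0)
        (∑ i ∈ F, if i ∈ F then (δ - 2) * ‖c i‖ else 0) :=
      hasSum_sum_of_ne_finset_zero fun i hi => if_neg hi
    have h2 : (∑ i ∈ F, if i ∈ F then (δ - 2) * ‖c i‖ else 0) = ∑ i ∈ F, (δ - 2) * ‖c i‖ :=
      Finset.sum_congr rfl fun i hi => if_pos hi
    rwa [h2] at h1
  refine (tsum_of_norm_bounded hb fun i => ?_).trans ?_
  · rw [ap_add, ← mul_assoc, mul_right_comm]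
    have h1 : c i * cexp (I * g i * (τ : ℝ)) * cexp (I * g i * (v : ℝ)) -
        c i * cexp (I * g i * (v : ℝ)) =
        c i * ((cexp (I * g i * (τ : ℝ)) - 1) * cexp (I * g i * (v : ℝ))) := by ring
    rw [h1, norm_mul, norm_mul, ap_norm, mul_one]
    by_cases hi : i ∈ F
    · rw [if_pos hi]
      have h2 : ‖cexp (I * g i * (τ : ℝ)) - 1‖ ≤ δ := hτ2 ⟨i, hi⟩
      nlinarith [norm_nonneg (c i)]
    · rw [if_neg hi, add_zero]
      have h2 : ‖cexp (I * g i * (τ : ℝ)) - 1‖ ≤ 2 := by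
        refine (norm_sub_le _ _).trans ?_
        rw [ap_norm, norm_one]
        norm_num
      nlinarith [norm_nonneg (c i)]
  · rw [← Finset.mul_sum]
    nlinarith

end Pool.Agent.Y763.SJ
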