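import Pool.Agent.Y763.SJ.Stm

/-!
# SJ-APX: the Gaussian means are an approximate identity (helper363)
-/

set_option autoImplicit false

open Complex Filter Topology Set MeasureTheory

namespace Pool.Agent.Y763.SJ

theorem gS_one (y : ℝ) : gS 1 y = 1 / (2 * √Real.pi) * Real.exp (-(1 / 4) * y ^ 2) := by
  unfold gS
  congr 2
  ring

theorem gS_one_nonneg (y : ℝ) : 0 ≤ gS 1 y := by
  unfold gS
  positivity

theorem gS_one_cont : Continuous (gS 1) := by
  have h : gS 1 = fun y => 1 / (2 * √Real.pi) * Real.exp (-(1 / 4) * y ^ 2) := funext gS_one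
  rw [h]
  fun_prop

theorem integral_gS_one : ∫ y, gS 1 y = 1 := by
  have h : gS 1 = fun y => 1 / (2 * √Real.pi) * Real.exp (-(1 / 4) * y ^ 2) := funext gS_one
  rw [h, integral_const_mul, integral_gaussian]
  have h1 : Real.pi / (1 / 4) = 2 ^ 2 * Real.pi := by ring
  have h2 : 0 < √Real.pi := Real.sqrt_pos.2 Real.pi_pos
  rw [h1, Real.sqrt_mul (by norm_num), Real.sqrt_sq (by norm_num)]
  field_simp

/-- the substitution `x = y / S` -/
theorem apx_subst (D : ℝ → ℝ) (v₀ S : ℝ) (hS : 0 < S) :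
    ∫ x, gS S x * D (v₀ - x) = ∫ y, gS 1 y * D (v₀ - y / S) := by
  have h1 := MeasureTheory.Measure.integral_comp_mul_left
    (fun y : ℝ => S * (gS 1 y * D (v₀ - y / S))) S
  have h2 : (fun x : ℝ => S * (gS 1 (S * x) * D (v₀ - S * x / S))) =
      fun x => gS S x * D (v₀ - x) := by
    funext x
    have h3 : S * x / S = x := by field_simp
    rw [h3]
    unfold gS
    ring_nf
  rw [h2] at h1
  rw [h1, integral_const_mul, abs_of_pos (inv_pos.2 hS), smul_eq_mul, ← mul_assoc,
    inv_mul_cancel₀ hS.ne', one_mul]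

theorem apx_bound : Integrable (fun y : ℝ => gS 1 y * Real.exp |y|) := by
  have h1 : Integrable (fun y : ℝ => 1 / (2 * √Real.pi) * Real.exp 2 *
      Real.exp (-(1 / 8) * y ^ 2)) :=
    (integrable_exp_neg_mul_sq (by norm_num : (0 : ℝ) < 1 / 8)).const_mul _
  refine h1.mono' ?_ (ae_of_all _ fun y => ?_)
  · exact (gS_one_cont.mul (Real.continuous_exp.comp continuous_abs)).aestronglyMeasurable
  · rw [Real.norm_of_nonneg (mul_nonneg (gS_one_nonneg y) (Real.exp_pos _).le), gS_one]
    have h2 : Real.exp (-(1 / 4) * y ^ 2) * Real.exp |y| ≤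
        Real.exp 2 * Real.exp (-(1 / 8) * y ^ 2) := by
      rw [← Real.exp_add, ← Real.exp_add]
      apply Real.exp_le_exp.2
      have := sq_abs y
      nlinarith [sq_nonneg (|y| - 4)]
    have h3 : 0 ≤ 1 / (2 * √Real.pi) := by positivity
    calc 1 / (2 * √Real.pi) * Real.exp (-(1 / 4) * y ^ 2) * Real.exp |y| =
        1 / (2 * √Real.pi) * (Real.exp (-(1 / 4) * y ^ 2) * Real.exp |y|) := by ring
      _ ≤ 1 / (2 * √Real.pi) * (Real.exp 2 * Real.exp (-(1 / 8) * y ^ 2)) :=
        mul_le_mul_of_nonneg_left h2 h3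
      _ = _ := by ring

/-- (APX) -/
theorem t_APX : S_APX := by
  intro D K v₀ hD hK hc
  have hK0 : 0 ≤ K := by
    have := (abs_nonneg _).trans (hK 0)
    rwa [Real.exp_zero, mul_one] at this
  have h1 : (fun S : ℝ => ∫ y, gS 1 y * D (v₀ - y / S)) =ᶠ[atTop]
      fun S : ℝ => ∫ x, gS S x * D (v₀ - x) := by
    filter_upwards [eventually_gt_atTop 0] with S hS
    exact (apx_subst D v₀ S hS).symm
  refine Tendsto.congr' h1 ?_
  have h2 : D v₀ = ∫ y, gS 1 y * D v₀ := by
    rw [integral_mul_const, integral_gS_one, one_mul]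
  rw [h2]
  refine tendsto_integral_filter_of_dominated_convergence
    (fun y => K * Real.exp v₀ * (gS 1 y * Real.exp |y|)) ?_ ?_ (apx_bound.const_mul _) ?_
  · refine Eventually.of_forall fun S => ?_
    have h3 : Measurable fun y : ℝ => D (v₀ - y / S) :=
      hD.comp (measurable_const.sub (measurable_id.div_const S))
    exact (gS_one_cont.measurable.mul h3).aestronglyMeasurable
  · filter_upwards [eventually_ge_atTop 1] with S hS
    refine ae_of_all _ fun y => ?_
    rw [norm_mul, Real.norm_of_nonneg (gS_one_nonneg y), Real.norm_eq_abs]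
    have h3 : |D (v₀ - y / S)| ≤ K * (Real.exp v₀ * Real.exp |y|) := by
      refine (hK _).trans (mul_le_mul_of_nonneg_left ?_ hK0)
      rw [← Real.exp_add]
      apply Real.exp_le_exp.2
      have h4 : |y / S| ≤ |y| := by
        rw [abs_div, abs_of_pos (show (0 : ℝ) < S by linarith)]
        exact div_le_self (abs_nonneg y) hS
      have h5 := neg_abs_le (y / S)
      linarith
    calc gS 1 y * |D (v₀ - y / S)| ≤ gS 1 y * (K * (Real.exp v₀ * Real.exp |y|)) :=
          mul_le_mul_of_nonneg_left h3 (gS_one_nonneg y)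
      _ = _ := by ring
  · refine ae_of_all _ fun y => ?_
    refine Tendsto.const_mul _ ?_
    have h3 : Tendsto (fun S : ℝ => v₀ - y / S) atTop (𝓝 (v₀ - 0)) :=
      tendsto_const_nhds.sub (tendsto_const_nhds.div_atTop tendsto_id)
    rw [sub_zero] at h3
    exact hc.tendsto.comp h3

end Pool.Agent.Y763.SJ
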