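import Pool.Agent.Y763.SJ.Stm

/-! (DENS) relatively dense large Gaussian means give positive lower density -/

set_option autoImplicit false

open Filter Topology Set MeasureTheory

namespace Pool.Agent.Y763.SJ

namespace DENS

lemma gS_eq (S x : ℝ) :
    gS S x = S / (2 * √Real.pi) * Real.exp (-(S ^ 2 / 4) * x ^ 2) := by
  unfold gS; congr 2; ring

lemma gS_int {S : ℝ} (hS : 0 < S) : Integrable (gS S) := by
  have h := (integrable_exp_neg_mul_sq (b := S ^ 2 / 4) (by positivity)).const_mul
    (S / (2 * √Real.pi))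
  exact h.congr (Eventually.of_forall fun x => (gS_eq S x).symm)

lemma gS_integral {S : ℝ} (hS : 0 < S) : ∫ x, gS S x = 1 := by
  simp_rw [gS_eq]
  rw [integral_const_mul, integral_gaussian]
  have hp : 0 < Real.pi := Real.pi_pos
  have h1 : √(Real.pi / (S ^ 2 / 4)) = 2 * √Real.pi / S := by
    have h2 : Real.pi / (S ^ 2 / 4) = (2 * √Real.pi / S) ^ 2 := by
      rw [div_pow, mul_pow, Real.sq_sqrt hp.le]; field_simp; ring
    rw [h2]
    exact Real.sqrt_sq (by positivity)
  rw [h1]
  have h3 : √Real.pi ≠ 0 := by positivity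
  field_simp

lemma gS_nonneg {S : ℝ} (hS : 0 < S) (x : ℝ) : 0 ≤ gS S x := by unfold gS; positivity

lemma gS_le {S : ℝ} (hS : 0 < S) (x : ℝ) : gS S x ≤ S / (2 * √Real.pi) := by
  unfold gS
  have h : Real.exp (-(S * x / 2) ^ 2) ≤ 1 := by
    rw [Real.exp_le_one_iff]; nlinarith [sq_nonneg (S * x / 2)]
  have h0 : 0 ≤ S / (2 * √Real.pi) := by positivity
  nlinarith

lemma tail {f : ℝ → ℝ} (hf : Integrable f) :
    Tendsto (fun R : ℝ => ∫ x in (Icc (-R) R)ᶜ, f x) atTop (𝓝 0) := by
  have h1 := (aecover_Icc (μ := (volume : Measure ℝ)) tendsto_neg_atTop_atBot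
    tendsto_id).integral_tendsto_of_countably_generated hf
  have h2 := (tendsto_const_nhds (x := ∫ x, f x)).sub h1
  rw [sub_self] at h2
  refine h2.congr fun R => ?_
  rw [← integral_add_compl (measurableSet_Icc (a := -R) (b := R)) hf]
  simp only [id]
  ring

lemma blocks {E : Set ℝ} (hE : MeasurableSet E) {c₁ L₁ : ℝ} (hc : 0 < c₁) (hL : 0 < L₁)
    (h : ∀ k : ℕ, c₁ ≤ (volume (E ∩ Icc (k * L₁) ((k + 1 : ℕ) * L₁))).toReal) :
    ∃ c : ℝ, 0 < c ∧ ∀ᶠ V : ℝ in atTop, c * V ≤ (volume (E ∩ Icc 0 V)).toReal := by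
  have hfin : ∀ a b : ℝ, volume (E ∩ Ico a b) ≠ ⊤ := fun a b =>
    measure_ne_top_of_subset inter_subset_right (by simp)
  have hfin' : ∀ a b : ℝ, volume (E ∩ Icc a b) ≠ ⊤ := fun a b =>
    measure_ne_top_of_subset inter_subset_right (by simp)
  have hco : ∀ a b : ℝ, volume (E ∩ Ico a b) = volume (E ∩ Icc a b) := by
    intro a b
    exact measure_congr ((ae_eq_refl E).inter Ico_ae_eq_Icc)
  have hn : ∀ n : ℕ, (n : ℝ) * c₁ ≤ (volume (E ∩ Ico 0 (n * L₁))).toReal := by
    intro n
    induction n with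
    | zero => simp
    | succ n ih =>
      have e : E ∩ Ico 0 ((n + 1 : ℕ) * L₁) =
          (E ∩ Ico 0 (n * L₁)) ∪ (E ∩ Ico (n * L₁) ((n + 1 : ℕ) * L₁)) := by
        rw [← inter_union_distrib_left, Ico_union_Ico_eq_Ico (by positivity)
          (by push_cast; nlinarith)]
      have hd : Disjoint (E ∩ Ico 0 (n * L₁)) (E ∩ Ico (n * L₁) ((n + 1 : ℕ) * L₁)) := by
        rw [Set.disjoint_left]
        rintro x ⟨_, hx1⟩ ⟨_, hx2⟩
        exact absurd hx1.2 (not_lt.2 hx2.1)
      rw [e, measure_union hd (hE.inter measurableSet_Ico), ENNReal.toReal_add (hfin _ _) (hfin _ _)]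
      have h1 := h n
      rw [← hco] at h1
      push_cast at h1 ih ⊢
      linarith
  refine ⟨c₁ / (2 * L₁), by positivity, ?_⟩
  filter_upwards [eventually_ge_atTop (2 * L₁)] with V hV
  have hV0 : 0 ≤ V := by linarith
  have h1 : (⌊V / L₁⌋₊ : ℝ) ≤ V / L₁ := Nat.floor_le (by positivity)
  have h2 : V / L₁ < ⌊V / L₁⌋₊ + 1 := Nat.lt_floor_add_one _
  rw [le_div_iff₀ hL] at h1
  rw [div_lt_iff₀ hL] at h2
  have h3 : (volume (E ∩ Ico 0 (⌊V / L₁⌋₊ * L₁))).toReal ≤ (volume (E ∩ Icc 0 V)).toReal := by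
    apply ENNReal.toReal_mono (hfin' _ _)
    apply measure_mono
    rintro x ⟨hx, hx1, hx2⟩
    exact ⟨hx, hx1, by linarith⟩
  refine le_trans ?_ ((hn ⌊V / L₁⌋₊).trans h3)
  rw [div_mul_eq_mul_div, div_le_iff₀ (by positivity)]
  nlinarith

end DENS

open DENS

theorem t_DENS : S_DENS := by
  intro D K B l δ S L hD hK hB hδ hS hL hrec
  have hB0 : 0 ≤ B := (abs_nonneg _).trans (hB 0 le_rfl)
  have hK0 : 0 ≤ K := by simpa using (abs_nonneg _).trans (hK 0)
  obtain ⟨M, hM⟩ : ∃ M : ℝ, M = B + K + |l| + 1 := ⟨_, rfl⟩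
  have hM0 : 0 < M := by rw [hM]; positivity
  obtain ⟨G, hG⟩ : ∃ G : ℝ, G = S / (2 * √Real.pi) := ⟨_, rfl⟩
  have hG0 : 0 < G := by rw [hG]; positivity
  have hDb : ∀ v, 0 ≤ v → ∀ x, |D (v - x)| ≤ B + K := by
    intro v hv x
    rcases le_or_gt x v with h | h
    · exact (hB _ (by linarith)).trans (by linarith)
    · refine (hK _).trans ?_
      have h1 : Real.exp (v - x) ≤ 1 := Real.exp_le_one_iff.2 (by linarith)
      nlinarith
  obtain ⟨R, hR, hR0⟩ : ∃ R : ℝ, M * ∫ x in (Icc (-R) R)ᶜ, gS S x ≤ δ / 2 ∧ 0 < R := by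
    have h1 := (tail (gS_int hS)).const_mul M
    rw [mul_zero] at h1
    obtain ⟨R, h2, h3⟩ :=
      ((h1.eventually (ge_mem_nhds (half_pos hδ))).and (eventually_gt_atTop 0)).exists
    exact ⟨R, h2, h3⟩
  have hEm : MeasurableSet {v : ℝ | l ≤ D v} := measurableSet_le measurable_const hD
  have key : ∀ v : ℝ, 0 ≤ v → l + δ ≤ ∫ x, gS S x * D (v - x) →
      δ / (2 * (G * M)) ≤ (volume ({v : ℝ | l ≤ D v} ∩ Icc (v - R) (v + R))).toReal := by
    intro v hv hint
    have hmeas : Measurable fun x => D (v - x) := hD.comp (measurable_const.sub measurable_id)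
    have hi1 : Integrable fun x => gS S x * D (v - x) :=
      (gS_int hS).mul_bdd (c := B + K) hmeas.aestronglyMeasurable
        (Eventually.of_forall fun x => by rw [Real.norm_eq_abs]; exact hDb v hv x)
    have hi3 : Integrable fun x => gS S x * l := (gS_int hS).mul_const l
    have e : ∀ x, gS S x * (D (v - x) - l) = gS S x * D (v - x) - gS S x * l := fun x => by ring
    have hi2 : Integrable fun x => gS S x * (D (v - x) - l) := by
      simp_rw [e]
      exact hi1.sub hi3
    have h1 : δ ≤ ∫ x, gS S x * (D (v - x) - l) := by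
      simp_rw [e]
      rw [integral_sub hi1 hi3, integral_mul_const, gS_integral hS, one_mul]
      linarith
    obtain ⟨A, hA⟩ : ∃ A : Set ℝ, A = (fun x => v - x) ⁻¹' ({v : ℝ | l ≤ D v} ∩ Icc (v - R) (v + R)) :=
      ⟨_, rfl⟩
    have hAm : MeasurableSet A := by
      rw [hA]
      exact (hEm.inter measurableSet_Icc).preimage (measurable_const.sub measurable_id)
    have hAv : volume A = volume ({v : ℝ | l ≤ D v} ∩ Icc (v - R) (v + R)) := by
      rw [hA]
      exact (volume.measurePreserving_sub_left v).measure_preimage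
        (hEm.inter measurableSet_Icc).nullMeasurableSet
    have hAfin : volume A ≠ ⊤ := by
      rw [hAv]; exact measure_ne_top_of_subset inter_subset_right (by simp)
    have hmA : ∀ x, x ∈ A ↔ l ≤ D (v - x) ∧ x ∈ Icc (-R) R := by
      intro x
      rw [hA]
      simp only [mem_preimage, mem_inter_iff, mem_ofPred_eq, mem_Icc]
      constructor
      · rintro ⟨h1, h2, h3⟩; exact ⟨h1, by linarith, by linarith⟩
      · rintro ⟨h1, h2, h3⟩; exact ⟨h1, by linarith, by linarith⟩
    have hpt : ∀ x, gS S x * (D (v - x) - l) ≤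
        (Icc (-R) R)ᶜ.indicator (fun x => M * gS S x) x + A.indicator (fun _ => G * M) x := by
      intro x
      have hb := (abs_le.1 (hDb v hv x)).2
      have hup : D (v - x) - l ≤ M := by
        have := neg_abs_le l
        rw [hM]; linarith
      have hg0 := gS_nonneg hS x
      have hg1 : gS S x ≤ G := by rw [hG]; exact gS_le hS x
      by_cases hx : x ∈ Icc (-R) R
      · rw [indicator_of_notMem (by simpa using hx), zero_add]
        by_cases hl : l ≤ D (v - x)
        · rw [indicator_of_mem ((hmA x).2 ⟨hl, hx⟩)]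
          exact mul_le_mul hg1 hup (by linarith) hG0.le
        · rw [indicator_of_notMem (fun h => hl ((hmA x).1 h).1)]
          exact mul_nonpos_of_nonneg_of_nonpos hg0 (by linarith)
      · rw [indicator_of_mem (by simpa using hx)]
        have h3 : 0 ≤ A.indicator (fun _ => G * M) x := indicator_nonneg (fun _ _ => by positivity) x
        have h4 : gS S x * (D (v - x) - l) ≤ M * gS S x := by
          rw [mul_comm]; exact mul_le_mul_of_nonneg_right hup hg0
        linarith
    have hI1 : Integrable ((Icc (-R) R)ᶜ.indicator (fun x => M * gS S x)) :=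
      ((gS_int hS).const_mul M).indicator measurableSet_Icc.compl
    have hI2 : Integrable (A.indicator (fun _ => G * M)) :=
      (integrable_indicator_iff hAm).2 (integrableOn_const hAfin)
    have h2 := integral_mono hi2 (hI1.add hI2) hpt
    simp only [Pi.add_apply] at h2
    rw [integral_add hI1 hI2, integral_indicator measurableSet_Icc.compl, integral_indicator hAm,
      setIntegral_const, integral_const_mul, smul_eq_mul] at h2
    have h5 : δ / 2 ≤ volume.real A * (G * M) := by linarith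
    rw [← hAv]
    rw [div_le_iff₀ (by positivity)]
    have h6 : (volume A).toReal = volume.real A := rfl
    rw [h6]
    linarith
  refine blocks hEm (c₁ := δ / (2 * (G * M))) (L₁ := L + 2 * R) (by positivity) (by positivity) ?_
  intro k
  obtain ⟨v, hv, hint⟩ := hrec (k * (L + 2 * R) + R) (by positivity)
  have hv0 : 0 ≤ v := le_trans (by positivity) hv.1
  refine (key v hv0 hint).trans ?_
  apply ENNReal.toReal_mono (measure_ne_top_of_subset inter_subset_right (by simp))
  apply measure_mono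
  apply inter_subset_inter_right
  apply Icc_subset_Icc
  · linarith [hv.1]
  · have := hv.2
    push_cast
    linarith

end Pool.Agent.Y763.SJ
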