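import Pool.Agent.Y763.SJ.Stm

/-!
Project SJ: the Fourier transform of the test function on the line (job SJ-FG). Authors: helper763
(statement and plan), helper67 (this proof).
-/

set_option autoImplicit false

open Complex Filter Topology Set MeasureTheory

namespace Pool.Agent.Y763.SJ

/-- the integrand as a function of two variables -/
noncomputable def FF (S v L y r : ℝ) : ℂ :=
  ((Real.exp (-(L / 2)) * Real.exp (r / 2) : ℝ) : ℂ) *
    (cexp (I * ((v + r - L : ℝ) : ℂ) * y) * cexp (-((1 / S ^ 2 : ℝ) : ℂ) * (y : ℂ) ^ 2))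

theorem FF_norm (S v L y r : ℝ) : ‖FF S v L y r‖ =
    Real.exp (-(1 / S ^ 2) * y ^ 2) * (Real.exp (-(L / 2)) * Real.exp (r / 2)) := by
  unfold FF
  rw [norm_mul, norm_mul, Complex.norm_real, Real.norm_eq_abs, abs_of_pos (by positivity),
    Complex.norm_exp, Complex.norm_exp]
  have e1 : (I * ((v + r - L : ℝ) : ℂ) * (y : ℂ)).re = 0 := by
    simp
  have e2 : (-((1 / S ^ 2 : ℝ) : ℂ) * (y : ℂ) ^ 2).re = -(1 / S ^ 2) * y ^ 2 := by
    rw [← Complex.ofReal_neg, ← Complex.ofReal_pow, ← Complex.ofReal_mul, Complex.ofReal_re]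
  rw [e1, e2, Real.exp_zero, one_mul, mul_comm]

theorem FF_inner (S v L r : ℝ) (hS : 0 < S) : ∫ y : ℝ, FF S v L y r =
    ((Real.exp (-(L / 2)) * Real.exp (r / 2) * (2 * Real.pi * gS S (v + r - L)) : ℝ) : ℂ) := by
  have hpi := Real.pi_pos
  have hS2 : 0 < 1 / S ^ 2 := by positivity
  unfold FF
  rw [integral_const_mul, fourierIntegral_gaussian (by rw [Complex.ofReal_re]; exact hS2)]
  have e1 : (Real.pi : ℂ) / ((1 / S ^ 2 : ℝ) : ℂ) = ((Real.pi * S ^ 2 : ℝ) : ℂ) := by
    push_cast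
    rw [div_div_eq_mul_div, div_one]
  have e2 : ((Real.pi * S ^ 2 : ℝ) : ℂ) ^ (1 / 2 : ℂ) = ((√Real.pi * S : ℝ) : ℂ) := by
    rw [show (1 / 2 : ℂ) = ((1 / 2 : ℝ) : ℂ) by push_cast; rfl,
      ← Complex.ofReal_cpow (by positivity), ← Real.sqrt_eq_rpow, Real.sqrt_mul hpi.le,
      Real.sqrt_sq hS.le]
  have e3 : -((v + r - L : ℝ) : ℂ) ^ 2 / (4 * ((1 / S ^ 2 : ℝ) : ℂ)) =
      ((-(S * (v + r - L) / 2) ^ 2 : ℝ) : ℂ) := by
    have hS0 : (S : ℂ) ≠ 0 := by exact_mod_cast hS.ne'
    push_cast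
    field_simp
    ring
  rw [e1, e2, e3, ← Complex.ofReal_exp, ← Complex.ofReal_mul, ← Complex.ofReal_mul]
  congr 1
  unfold gS
  have h4 : √Real.pi * √Real.pi = Real.pi := Real.mul_self_sqrt hpi.le
  have h5 : √Real.pi ≠ 0 := (Real.sqrt_pos.2 hpi).ne'
  have h6 : √Real.pi * S = 2 * Real.pi * (S / (2 * √Real.pi)) := by
    field_simp
    linarith
  rw [h6]
  ring

theorem FF_meas (S v L : ℝ) : Continuous (Function.uncurry (FF S v L)) := by
  unfold FF Function.uncurry
  fun_prop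

theorem FF_int (S v L a b : ℝ) (hS : 0 < S) :
    Integrable (Function.uncurry (FF S v L)) ((volume : Measure ℝ).prod
      ((volume : Measure ℝ).restrict (Ioc a b))) := by
  have h1 : Integrable (fun y : ℝ => Real.exp (-(1 / S ^ 2) * y ^ 2)) volume :=
    integrable_exp_neg_mul_sq (by positivity)
  have h2 : Integrable (fun r : ℝ => Real.exp (-(L / 2)) * Real.exp (r / 2))
      ((volume : Measure ℝ).restrict (Ioc a b)) := by
    have hc : Continuous (fun r : ℝ => Real.exp (-(L / 2)) * Real.exp (r / 2)) := by fun_prop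
    exact (hc.integrableOn_Icc (a := a) (b := b)).mono_set Ioc_subset_Icc_self
  refine (h1.mul_prod h2).mono' (FF_meas S v L).aestronglyMeasurable ?_
  filter_upwards with z
  obtain ⟨y, r⟩ := z
  exact (FF_norm S v L y r).le

theorem FF_eq (S v L y r : ℝ) :
    cexp (-(L : ℂ) * (1 / 2 + ⟨0, y⟩)) * (cexp ((⟨0, y⟩ : ℂ) * v) *
      (cexp ((⟨0, y⟩ : ℂ) ^ 2 / (S : ℂ) ^ 2) * cexp (((⟨0, y⟩ : ℂ) + 1 / 2) * r))) =
    FF S v L y r := by
  unfold FF
  have e : (⟨0, y⟩ : ℂ) = I * y := by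
    apply Complex.ext <;> simp
  rw [e]
  push_cast
  rw [← Complex.exp_add, ← Complex.exp_add, ← Complex.exp_add, ← Complex.exp_add,
    ← Complex.exp_add, ← Complex.exp_add]
  congr 1
  rw [mul_pow, I_sq]
  ring

theorem t_FG : S_FG := by
  intro hQQ T S v L hT hS
  obtain ⟨K, hK, hQ⟩ := hQQ
  have hint := (hQ T hT).2.1
  have hab : la T ≤ lb T := by
    unfold la lb
    have h1 : 1 / (2 * T) ≤ 1 / 2 := one_div_le_one_div_of_le (by norm_num) (by linarith)
    have h2 : 0 < 1 / (2 * T) := by positivity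
    exact Real.log_le_log (by linarith) (by linarith)
  have h1 : ∀ y : ℝ, cexp (-(L : ℂ) * (1 / 2 + ⟨0, y⟩)) * hh T S v ⟨0, y⟩ =
      ∫ r in Ioc (la T) (lb T), FF S v L y r := by
    intro y
    unfold hh
    rw [hint, intervalIntegral.integral_of_le hab, ← integral_const_mul, ← integral_const_mul,
      ← integral_const_mul]
    exact integral_congr_ae (Eventually.of_forall fun r => FF_eq S v L y r)
  rw [integral_congr_ae (Eventually.of_forall h1), integral_integral_swap (FF_int S v L _ _ hS),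
    integral_congr_ae (Eventually.of_forall fun r => FF_inner S v L r hS), integral_complex_ofReal,
    intervalIntegral.integral_of_le hab, ← integral_const_mul]
  congr 2
  funext r
  ring

end Pool.Agent.Y763.SJ
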