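import Pool.Agent.Y763.SJ.Stm

/-!
Project SJ, job QQ (helper657): properties of the entire function `QQ`.
-/

set_option autoImplicit false

open Complex Filter Topology Set MeasureTheory

namespace Pool.Agent.Y763.SJ

theorem qq_bounds (T : ℝ) (hT : 1 ≤ T) :
    la T ≤ 0 ∧ 0 ≤ lb T ∧ -1 ≤ la T ∧ lb T ≤ 1 ∧ lb T - la T ≤ 2 / T := by
  have hT0 : 0 < T := by linarith
  obtain ⟨u, hu⟩ : ∃ u : ℝ, u = 1 / (2 * T) := ⟨_, rfl⟩
  have hu0 : 0 < u := by
    rw [hu]
    positivity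
  have hu1 : u ≤ 1 / 2 := by
    rw [hu]
    exact one_div_le_one_div_of_le (by norm_num) (by linarith)
  have hTu : 2 / T = 4 * u := by
    rw [hu]
    field_simp
    norm_num
  have ha : la T = Real.log (1 - u) := by
    unfold la
    rw [hu]
  have hb : lb T = Real.log (1 + u) := by
    unfold lb
    rw [hu]
  have h1 : la T ≤ 0 := by
    rw [ha]
    exact Real.log_nonpos (by linarith) (by linarith)
  have h2 : 0 ≤ lb T := by
    rw [hb]
    exact Real.log_nonneg (by linarith)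
  have h3 : lb T ≤ u := by
    rw [hb]
    have h := Real.log_le_sub_one_of_pos (show (0 : ℝ) < 1 + u by linarith)
    linarith
  have h4 : -(2 * u) ≤ la T := by
    rw [ha]
    have h := Real.one_sub_inv_le_log_of_pos (show (0 : ℝ) < 1 - u by linarith)
    have h5 : (1 - u)⁻¹ ≤ 1 + 2 * u := by
      rw [inv_le_iff_one_le_mul₀ (by linarith)]
      nlinarith
    linarith
  refine ⟨h1, h2, by linarith, by linarith, ?_⟩
  rw [hTu]
  linarith

/-- the entire function before the division -/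
theorem qq_diff (T : ℝ) : Differentiable ℂ
    (fun w : ℂ => cexp (w * (lb T : ℝ)) - cexp (w * (la T : ℝ))) := by
  fun_prop

theorem qq_formula (T : ℝ) (z : ℂ) :
    QQ T z = ∫ r in (la T)..(lb T), cexp ((z + 1 / 2) * r) := by
  unfold QQ
  obtain ⟨w, hw⟩ : ∃ w : ℂ, w = z + 1 / 2 := ⟨_, rfl⟩
  rw [← hw]
  by_cases h0 : w = 0
  · rw [h0, dslope_same]
    have h1 : HasDerivAt (fun w : ℂ => cexp (w * (lb T : ℝ)) - cexp (w * (la T : ℝ)))
        (cexp (0 * (lb T : ℝ)) * (1 * (lb T : ℝ)) - cexp (0 * (la T : ℝ)) * (1 * (la T : ℝ))) 0 :=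
      (((hasDerivAt_id (0 : ℂ)).mul_const _).cexp).sub (((hasDerivAt_id (0 : ℂ)).mul_const _).cexp)
    rw [h1.deriv]
    have h2 : ∀ r : ℝ, cexp (0 * (r : ℂ)) = 1 := by
      intro r
      rw [zero_mul, Complex.exp_zero]
    simp only [h2, intervalIntegral.integral_const, one_mul]
    rw [Complex.real_smul, mul_one]
    push_cast
    ring
  · rw [dslope_of_ne _ h0, slope_def_field, integral_exp_mul_complex h0]
    simp

theorem qq_norm (T : ℝ) (z : ℂ) (C : ℝ) (hT : 1 ≤ T)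
    (h : ∀ r : ℝ, -1 ≤ r → r ≤ 1 → Real.exp ((z.re + 1 / 2) * r) ≤ C) :
    ‖QQ T z‖ ≤ C * (2 / T) := by
  obtain ⟨h1, h2, h3, h4, h5⟩ := qq_bounds T hT
  rw [qq_formula]
  have hC : 0 ≤ C := (Real.exp_pos _).le.trans (h 0 (by norm_num) (by norm_num))
  have h6 := intervalIntegral.norm_integral_le_of_norm_le_const (a := la T) (b := lb T) (C := C)
    (f := fun r : ℝ => cexp ((z + 1 / 2) * r)) (by
      intro r hr
      rw [uIoc_of_le (h1.trans h2)] at hr
      rw [Complex.norm_exp]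
      have e : ((z + 1 / 2) * (r : ℂ)).re = (z.re + 1 / 2) * r := by
        simp [Complex.mul_re]
      rw [e]
      exact h r (h3.trans hr.1.le) (hr.2.trans h4))
  refine h6.trans ?_
  rw [abs_of_nonneg (by linarith)]
  exact mul_le_mul_of_nonneg_left h5 hC

theorem t_QQ : S_QQ := by
  refine ⟨2 * Real.exp (3 / 2) + 8, by positivity, fun T hT => ⟨?_, qq_formula T, ?_, ?_⟩⟩
  · have h1 : Differentiable ℂ
        (dslope (fun w : ℂ => cexp (w * (lb T : ℝ)) - cexp (w * (la T : ℝ))) 0) := by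
      rw [← differentiableOn_univ]
      exact (Complex.differentiableOn_dslope univ_mem).2 (qq_diff T).differentiableOn
    unfold QQ
    exact h1.comp (differentiable_id.add_const _)
  · intro z hz
    have h1 := qq_norm T z (Real.exp (3 / 2)) hT (by
      intro r hr1 hr2
      apply Real.exp_le_exp.2
      have hz1 := abs_le.1 hz
      nlinarith [abs_le.1 hz])
    have h2 : 2 / T ≤ 2 := by
      rw [div_le_iff₀ (by linarith)]
      linarith
    have h3 : 0 < Real.exp (3 / 2) := Real.exp_pos _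
    nlinarith
  · intro y
    have hT0 : 0 < T := by linarith
    have hy0 : 0 ≤ |y| := abs_nonneg y
    have hexp : Real.exp (1 / 2) ≤ 2 := by
      have h1 : Real.exp (1 / 2) * Real.exp (1 / 2) = Real.exp 1 := by
        rw [← Real.exp_add]
        norm_num
      have h2 := Real.exp_one_lt_d9
      have h3 := Real.exp_pos (1 / 2)
      nlinarith
    have hr : ∀ r : ℝ, -1 ≤ r → r ≤ 1 → Real.exp ((-1 + 1 / 2) * r) ≤ 2 := by
      intro r hr1 _
      refine le_trans (Real.exp_le_exp.2 ?_) hexp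
      linarith
    have hA : ‖QQ T ⟨-1, y⟩‖ ≤ 2 * (2 / T) := qq_norm T ⟨-1, y⟩ 2 hT hr
    -- the second bound
    obtain ⟨h1, h2, h3, h4, h5⟩ := qq_bounds T hT
    have hw0 : (⟨-1, y⟩ + 1 / 2 : ℂ) ≠ 0 := by
      intro h
      have e := congrArg Complex.re h
      simp at e
      norm_num at e
    have hB0 : QQ T ⟨-1, y⟩ = (cexp ((⟨-1, y⟩ + 1 / 2) * (lb T : ℝ)) -
        cexp ((⟨-1, y⟩ + 1 / 2) * (la T : ℝ))) / (⟨-1, y⟩ + 1 / 2) := by
      rw [qq_formula, integral_exp_mul_complex hw0]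
    have hnorm : ∀ r : ℝ, -1 ≤ r → r ≤ 1 → ‖cexp ((⟨-1, y⟩ + 1 / 2) * (r : ℂ))‖ ≤ 2 := by
      intro r hr1 hr2
      rw [Complex.norm_exp]
      have e : ((⟨-1, y⟩ + 1 / 2 : ℂ) * (r : ℂ)).re = (-1 + 1 / 2) * r := by
        simp [Complex.mul_re]
      rw [e]
      exact hr r hr1 hr2
    have hw : (1 + |y|) / 4 ≤ ‖(⟨-1, y⟩ + 1 / 2 : ℂ)‖ := by
      have e : ‖(⟨-1, y⟩ + 1 / 2 : ℂ)‖ ^ 2 = 1 / 4 + y ^ 2 := by
        rw [← Complex.normSq_eq_norm_sq, Complex.normSq_apply]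
        simp
        ring
      have h7 : ((1 + |y|) / 4) ^ 2 ≤ ‖(⟨-1, y⟩ + 1 / 2 : ℂ)‖ ^ 2 := by
        rw [e]
        have h8 : |y| ^ 2 = y ^ 2 := sq_abs y
        nlinarith [sq_nonneg (|y| - 1)]
      exact (pow_le_pow_iff_left₀ (by positivity) (norm_nonneg _) two_ne_zero).1 h7
    have hB : ‖QQ T ⟨-1, y⟩‖ ≤ 16 / (1 + |y|) := by
      rw [hB0, norm_div]
      have h7 : ‖cexp ((⟨-1, y⟩ + 1 / 2) * (lb T : ℝ)) -
          cexp ((⟨-1, y⟩ + 1 / 2) * (la T : ℝ))‖ ≤ 4 := by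
        refine (norm_sub_le _ _).trans ?_
        have h8 := hnorm (lb T) (by linarith) h4
        have h9 := hnorm (la T) h3 (by linarith)
        linarith
      rw [div_le_div_iff₀ (by positivity) (by positivity)]
      nlinarith [norm_nonneg (⟨-1, y⟩ + 1 / 2 : ℂ)]
    have hsq : ‖QQ T ⟨-1, y⟩‖ ^ 2 ≤ (8 / √T / √(1 + |y|)) ^ 2 := by
      rw [div_pow, div_pow, Real.sq_sqrt hT0.le, Real.sq_sqrt (by positivity)]
      have h7 : ‖QQ T ⟨-1, y⟩‖ ^ 2 ≤ (2 * (2 / T)) * (16 / (1 + |y|)) := by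
        rw [pow_two]
        exact mul_le_mul hA hB (norm_nonneg _) (by positivity)
      refine h7.trans (le_of_eq ?_)
      field_simp
      norm_num
    have h8 : ‖QQ T ⟨-1, y⟩‖ ≤ 8 / √T / √(1 + |y|) :=
      (pow_le_pow_iff_left₀ (norm_nonneg _) (by positivity) two_ne_zero).1 hsq
    refine h8.trans ?_
    have h9 : (0 : ℝ) ≤ 2 * Real.exp (3 / 2) := by positivity
    gcongr
    linarith

end Pool.Agent.Y763.SJ
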