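import Pool.Agent.Y763.SJ.W
import Pool.Agent.Y763.SJ.AP
import Pool.Agent.Y763.SJ.APX
import Pool.Agent.Y763.SJ.DENS
import Pool.Agent.Y763.SJ.QQ1
import Pool.Agent.Y763.SJ.FG

/-! Recurrence of the jumps. -/

set_option autoImplicit false
set_option maxHeartbeats 2000000

open Complex Filter Topology Set MeasureTheory

namespace Pool.Agent.Y763.SJ

open Pool.Agent.Y23 (Dec JJ JJ_eq JJ_norm dec_int dec_cont dec_line)
open Pool.Agent.W120.WM (ZC NT)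
open Pool.Agent.Y763.HB (muc ex ex_summ)
open Pool.Agent.H295R2 (Mx)
open Pool.Agent.Y763.GC (DD DD_eq DD_LL DD_bd Mx_eq ft_rec)
open Pool.Agent.TH223.AP (ft mn ZC_of_freq)

lemma inv_zeta_left : ∃ B : ℝ, 0 < B ∧ ∀ t : ℝ, ‖(riemannZeta (⟨-1 / 2, t⟩ : ℂ))⁻¹‖ ≤ B / (1 + |t|) := by
  obtain ⟨B, hB, h⟩ := Pool.Agent.W191.WM.left
  refine ⟨3 * B, by positivity, fun t => ?_⟩
  have h1 := (h t).2
  have h0 : (⟨-1 / 2, t⟩ : ℂ) ≠ 0 := by
    intro h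
    have := congrArg Complex.re h
    norm_num at this
  have e : (riemannZeta (⟨-1 / 2, t⟩ : ℂ))⁻¹ = (⟨-1 / 2, t⟩ : ℂ) * ((⟨-1 / 2, t⟩ : ℂ) * riemannZeta (⟨-1 / 2, t⟩ : ℂ))⁻¹ := by
    rw [mul_inv, ← mul_assoc, mul_inv_cancel₀ h0, one_mul]
  rw [e, norm_mul]
  obtain ⟨r, hr⟩ : ∃ r : ℝ, r = ‖(⟨-1 / 2, t⟩ : ℂ)‖ := ⟨_, rfl⟩
  have hr2 : r ^ 2 = 1 / 4 + t ^ 2 := by
    rw [hr, ← Complex.normSq_eq_norm_sq, Complex.normSq_apply]
    ring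
  have hr0 : 0 ≤ r := by rw [hr]; positivity
  have hr1 : 1 + |t| ≤ 3 * r := by
    have h2 := sq_abs t
    have h3 := abs_nonneg t
    by_contra hcon
    push Not at hcon
    nlinarith [sq_nonneg (|t| - 1)]
  rw [← hr2] at h1
  rw [← hr]
  have ht : 0 < 1 + |t| := by positivity
  have hrp : 0 < r := by linarith
  calc r * ‖((⟨-1 / 2, t⟩ : ℂ) * riemannZeta (⟨-1 / 2, t⟩ : ℂ))⁻¹‖ ≤ r * (B / r ^ 2) := by gcongr
    _ = B / r := by field_simp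
    _ ≤ B / ((1 + |t|) / 3) := by
        gcongr
        linarith
    _ = 3 * B / (1 + |t|) := by field_simp

/-- the integral on the left -/
noncomputable def LL (T S v : ℝ) : ℂ := ∫ y : ℝ, (riemannZeta ⟨-1 / 2, y⟩)⁻¹ * hh T S v ⟨-1, y⟩

theorem left_int (hQ : S_QQ) : ∃ C : ℝ, 0 < C ∧ ∀ T S v : ℝ, 1 ≤ T → 1 ≤ S → 0 ≤ v → ‖LL T S v‖ ≤ C / √T := by
  obtain ⟨K, hK, hq⟩ := hQ
  obtain ⟨B, hB, hz⟩ := inv_zeta_left
  have hint : Integrable fun y : ℝ => (1 + ‖y‖) ^ (-(3 / 2 : ℝ)) := integrable_one_add_norm (by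
    rw [Module.finrank_self]
    norm_num)
  obtain ⟨J, hJ⟩ : ∃ J : ℝ, J = ∫ y : ℝ, (1 + ‖y‖) ^ (-(3 / 2 : ℝ)) := ⟨_, rfl⟩
  have hJ0 : 0 ≤ J := by
    rw [hJ]
    exact integral_nonneg fun y => by positivity
  refine ⟨B * Real.exp 1 * K * (J + 1), by positivity, fun T S v hT hS hv => ?_⟩
  obtain ⟨-, -, -, hq4⟩ := hq T hT
  have hT0 : 0 < √T := Real.sqrt_pos.2 (by linarith)
  unfold LL
  refine (norm_integral_le_of_norm_le (hint.const_mul (B * Real.exp 1 * K / √T)) (Eventually.of_forall fun y => ?_)).trans ?_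
  · have h1 : ‖hh T S v ⟨-1, y⟩‖ ≤ Real.exp 1 * (K / √T / √(1 + |y|)) := by
      unfold hh
      rw [norm_mul, norm_mul, Complex.norm_exp, Complex.norm_exp]
      have e1 : ((⟨-1, y⟩ : ℂ) * (v : ℂ)).re = -v := by simp
      have e2 : ((⟨-1, y⟩ : ℂ) ^ 2 / (S : ℂ) ^ 2).re = (1 - y ^ 2) / S ^ 2 := by
        rw [show (S : ℂ) ^ 2 = ((S ^ 2 : ℝ) : ℂ) by push_cast; rfl, Complex.div_ofReal_re, pow_two,
          Complex.mul_re]
        ring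
      rw [e1, e2]
      have h2 : Real.exp (-v) ≤ 1 := Real.exp_le_one_iff.2 (by linarith)
      have h3 : (1 - y ^ 2) / S ^ 2 ≤ 1 := by
        rw [div_le_one (by positivity)]
        nlinarith [sq_nonneg y]
      calc Real.exp (-v) * (Real.exp ((1 - y ^ 2) / S ^ 2) * ‖QQ T ⟨-1, y⟩‖) ≤
            1 * (Real.exp 1 * (K / √T / √(1 + |y|))) := by
            gcongr
            exact hq4 y
        _ = _ := one_mul _
    have h2 := hz y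
    have hy : 0 < 1 + |y| := by positivity
    have h3 : √(1 + |y|) = (1 + |y|) ^ (1 / 2 : ℝ) := Real.sqrt_eq_rpow _
    have h4 : (1 + ‖y‖) ^ (-(3 / 2 : ℝ)) = (1 + |y|)⁻¹ * ((1 + |y|) ^ (1 / 2 : ℝ))⁻¹ := by
      rw [Real.norm_eq_abs, ← Real.rpow_neg hy.le, ← Real.rpow_neg_one, ← Real.rpow_add hy]
      norm_num
    rw [norm_mul, h4]
    calc ‖(riemannZeta ⟨-1 / 2, y⟩)⁻¹‖ * ‖hh T S v ⟨-1, y⟩‖ ≤
          (B / (1 + |y|)) * (Real.exp 1 * (K / √T / √(1 + |y|))) :=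
          mul_le_mul h2 h1 (norm_nonneg _) (by positivity)
      _ = B * Real.exp 1 * K / √T * ((1 + |y|)⁻¹ * ((1 + |y|) ^ (1 / 2 : ℝ))⁻¹) := by
          rw [h3]
          field_simp
  · rw [integral_const_mul, ← hJ, div_mul_eq_mul_div]
    gcongr
    linarith

/-- the smoothed difference -/
noncomputable def GG (T S v : ℝ) : ℝ := ∫ x, gS S x * DT T (v - x)

/-- the coefficients -/
noncomputable def cf (T S : ℝ) (ρ : NT) : ℂ := hh T S 0 ((ρ : ℂ) - 1 / 2) / deriv riemannZeta ρ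

lemma cf_summ (hZ : ZC) (hQ : S_QQ) {T S : ℝ} (hT : 1 ≤ T) (hS : 0 < S) : Summable fun ρ : NT => ‖cf T S ρ‖ := by
  obtain ⟨K, hK, hq⟩ := hQ
  obtain ⟨hd, hrep, hb, -⟩ := hq T hT
  have hdec := hh_dec (v := 0) hK hS hd hb
  exact ex_summ hZ (by positivity) (by positivity) hdec

theorem formula (hZ : ZC) (hQ : S_QQ) (hF : S_FG) {T S v : ℝ} (hT : 1 ≤ T) (hS : 0 < S) :
    ∑' ρ : NT, cf T S ρ * cexp (I * ((ρ : ℂ).im : ℝ) * (v : ℝ)) =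
      (GG T S v : ℂ) - ((2 * Real.pi : ℝ) : ℂ)⁻¹ * LL T S v := by
  obtain ⟨K, hK, hq⟩ := id hQ
  obtain ⟨hd, hrep, hb, -⟩ := hq T hT
  have hdec := hh_dec (v := v) hK hS hd hb
  have h1 := ex hZ (by positivity) (by positivity) hdec
  rw [series hQ hF hT hS] at h1
  have h2 : ∀ ρ : NT, cf T S ρ * cexp (I * ((ρ : ℂ).im : ℝ) * (v : ℝ)) =
      hh T S v ((ρ : ℂ) - 1 / 2) / deriv riemannZeta ρ := by
    intro ρ
    have h3 : (ρ : ℂ) - 1 / 2 = I * ((ρ : ℂ).im : ℝ) := by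
      apply Complex.ext
      · simp [(hZ.1 ρ ρ.2).1]
      · simp
    unfold cf hh
    rw [← h3, Complex.ofReal_zero, mul_zero, Complex.exp_zero, one_mul]
    ring
  rw [tsum_congr h2, h1]
  have hpi : ((2 * Real.pi : ℝ) : ℂ) ≠ 0 := by
    have := Real.pi_pos
    exact_mod_cast (by positivity : (2 * Real.pi : ℝ) ≠ 0)
  unfold GG LL
  obtain ⟨g, hg⟩ : ∃ g : ℝ, g = ∫ x, gS S x * DT T (v - x) := ⟨_, rfl⟩
  rw [← hg]
  have e : ((2 * Real.pi * g : ℝ) : ℂ) = ((2 * Real.pi : ℝ) : ℂ) * (g : ℂ) := by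
    push_cast
    ring
  rw [e, mul_sub, ← mul_assoc, inv_mul_cancel₀ hpi, one_mul]

/-- boundedness implies the condition on the zeros -/
theorem ZC_of_bd {T B : ℝ} (hT : 1 ≤ T) (hB : ∀ v, 0 ≤ v → |DT T v| ≤ B) : ZC := by
  obtain ⟨K, hK⟩ : ∃ K : ℝ, K = (4 * T + 1) * (4 * T + 2) := ⟨_, rfl⟩
  have hK0 : 0 < K := by rw [hK]; positivity
  refine ZC_of_freq (C := K * (1300 + B ^ 2)) (Eventually.frequently ?_)
  filter_upwards [eventually_ge_atTop (1:ℝ)] with L hL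
  have hL0 : 0 < L := by linarith
  have h1 := ft_rec hT (u := 1) (left_mem_Icc.2 one_le_two) hL
  rw [← hK] at h1
  have h2 : ∫ v in (0:ℝ)..L, DD (1 - 1 / (2 * T)) (1 + 1 / (2 * T)) v ^ 2 ≤ B ^ 2 * L := by
    have h3 : ∫ v in (0:ℝ)..L, DD (1 - 1 / (2 * T)) (1 + 1 / (2 * T)) v ^ 2 ≤ ∫ v in (0:ℝ)..L, B ^ 2 := by
      refine intervalIntegral.integral_mono_on hL0.le ((DD_LL _ _).sq.ii 0 L) intervalIntegrable_const (fun v hv => ?_)
      have h4 := hB v hv.1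
      unfold DT at h4
      rw [← sq_abs]
      exact pow_le_pow_left₀ (abs_nonneg _) h4 2
    rw [intervalIntegral.integral_const, smul_eq_mul, sub_zero] at h3
    linarith
  show (∫ v in (0:ℝ)..L, ft v ^ 2) / L ≤ _
  rw [div_le_iff₀ hL0]
  refine h1.trans ?_
  have h5 : 1300 + ∫ v in (0:ℝ)..L, DD (1 - 1 / (2 * T)) (1 + 1 / (2 * T)) v ^ 2 ≤ (1300 + B ^ 2) * L := by nlinarith
  calc K * (1300 + ∫ v in (0:ℝ)..L, DD (1 - 1 / (2 * T)) (1 + 1 / (2 * T)) v ^ 2) ≤ K * ((1300 + B ^ 2) * L) := by gcongr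
    _ = K * (1300 + B ^ 2) * L := by ring

/-- the main theorem for continuity points -/
theorem core (hQ : S_QQ) (hF : S_FG) : ∃ C : ℝ, 0 < C ∧ ∀ T B : ℝ, 1 ≤ T → (∀ v, 0 ≤ v → |DT T v| ≤ B) →
    ∀ v₀ : ℝ, 0 ≤ v₀ → ContinuousAt (DT T) v₀ → ∀ δ : ℝ, 0 < δ → ∀ s : ℝ, |s| = 1 →
    ∃ c : ℝ, 0 < c ∧ ∀ᶠ V : ℝ in atTop,
      c * V ≤ (volume ({v : ℝ | s * DT T v₀ - C / √T - δ ≤ s * DT T v} ∩ Icc 0 V)).toReal := by
  obtain ⟨C, hC, hleft⟩ := left_int hQ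
  refine ⟨C, hC, fun T B hT hB v₀ hv₀ hc δ hδ s hs => ?_⟩
  have hZ := ZC_of_bd hT hB
  have hT0 : 0 < √T := Real.sqrt_pos.2 (by linarith)
  -- choice of `S`
  have h1 := t_APX (DT T) 12 v₀ (DT_meas T) (DT_bd hT) hc
  obtain ⟨S, hS1, hS2⟩ := ((Metric.tendsto_nhds.1 h1 (δ / 4) (by positivity)).and (eventually_ge_atTop (1:ℝ))).exists
  rw [Real.dist_eq] at hS1
  have hS0 : 0 < S := by linarith
  -- almost periods
  obtain ⟨L, hL, hAP⟩ := t_AP NT (cf T S) (fun ρ => (ρ : ℂ).im) (cf_summ hZ hQ hT hS0) (δ / 4) (by positivity)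
  have hG : ∀ v : ℝ, 0 ≤ v → ‖(∑' ρ : NT, cf T S ρ * cexp (I * ((ρ : ℂ).im : ℝ) * (v : ℝ))) - (GG T S v : ℂ)‖ ≤
      C / √T / 2 := by
    intro v hv
    rw [formula hZ hQ hF hT hS0]
    have e : (GG T S v : ℂ) - ((2 * Real.pi : ℝ) : ℂ)⁻¹ * LL T S v - (GG T S v : ℂ) =
        -(((2 * Real.pi : ℝ) : ℂ)⁻¹ * LL T S v) := by ring
    rw [e, norm_neg, norm_mul, norm_inv, Complex.norm_real, Real.norm_eq_abs,
      abs_of_pos (by have := Real.pi_pos; positivity)]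
    have h2 := hleft T S v hT hS2 hv
    have h3 : (2 * Real.pi)⁻¹ ≤ 1 / 2 := by
      rw [inv_le_comm₀ (by have := Real.pi_pos; positivity) (by norm_num)]
      have := Real.pi_gt_three
      norm_num
      linarith
    calc (2 * Real.pi)⁻¹ * ‖LL T S v‖ ≤ 1 / 2 * (C / √T) := by gcongr
      _ = _ := by ring
  have habs : ∀ x y : ℝ, |x - y| ≤ δ / 4 → s * y - δ / 4 ≤ s * x := by
    intro x y hxy
    have h2 : |s * x - s * y| ≤ δ / 4 := by rw [← mul_sub, abs_mul, hs, one_mul]; exact hxy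
    linarith [(abs_le.1 h2).1]
  refine t_DENS (fun v => s * DT T v) 12 B (s * DT T v₀ - C / √T - δ) (δ / 2) S (L + v₀)
    ((DT_meas T).const_mul s) (fun v => by rw [abs_mul, hs, one_mul]; exact DT_bd hT v)
    (fun v hv => by rw [abs_mul, hs, one_mul]; exact hB v hv) (by positivity) hS0 (by linarith) (fun a ha => ?_)
  obtain ⟨τ, hτ, hτ2⟩ := hAP a
  have h2 := hτ2 v₀
  have h3 := hG v₀ hv₀
  have h4 := hG (v₀ + τ) (by linarith [hτ.1])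
  refine ⟨v₀ + τ, ⟨by linarith [hτ.1], by linarith [hτ.2]⟩, ?_⟩
  have h5 : |GG T S (v₀ + τ) - GG T S v₀| ≤ C / √T + δ / 4 := by
    have h6 : ‖((GG T S (v₀ + τ) : ℝ) : ℂ) - ((GG T S v₀ : ℝ) : ℂ)‖ ≤ C / √T + δ / 4 := by
      have e : ((GG T S (v₀ + τ) : ℝ) : ℂ) - ((GG T S v₀ : ℝ) : ℂ) =
          -((∑' ρ : NT, cf T S ρ * cexp (I * ((ρ : ℂ).im : ℝ) * ((v₀ + τ : ℝ) : ℝ))) - ((GG T S (v₀ + τ) : ℝ) : ℂ)) +
          ((∑' ρ : NT, cf T S ρ * cexp (I * ((ρ : ℂ).im : ℝ) * ((v₀ + τ : ℝ) : ℝ))) -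
            ∑' ρ : NT, cf T S ρ * cexp (I * ((ρ : ℂ).im : ℝ) * (v₀ : ℝ))) +
          ((∑' ρ : NT, cf T S ρ * cexp (I * ((ρ : ℂ).im : ℝ) * (v₀ : ℝ))) - ((GG T S v₀ : ℝ) : ℂ)) := by ring
      rw [e]
      refine (norm_add₃_le).trans ?_
      rw [norm_neg]
      have h7 : C / √T + δ / 4 = C / √T / 2 + δ / 4 + C / √T / 2 := by ring
      rw [h7]
      exact add_le_add (add_le_add h4 h2) h3
    rw [← Complex.ofReal_sub, Complex.norm_real, Real.norm_eq_abs] at h6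
    exact h6
  have h8 : |s * GG T S (v₀ + τ) - s * GG T S v₀| ≤ C / √T + δ / 4 := by
    rw [← mul_sub, abs_mul, hs, one_mul]
    exact h5
  have h9 := habs _ _ hS1.le
  have h10 : ∫ x, gS S x * (s * DT T (v₀ + τ - x)) = s * GG T S (v₀ + τ) := by
    unfold GG
    rw [← integral_const_mul]
    refine integral_congr_ae (Eventually.of_forall fun x => ?_)
    simp only
    ring
  rw [h10]
  have h11 := (abs_le.1 h8).1
  have h12 : s * DT T v₀ - δ / 4 ≤ s * GG T S v₀ := h9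
  linarith

end Pool.Agent.Y763.SJ
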