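import Pool.Agent.Y763.SJ.F

/-! Recurrence of the jumps: final form. -/

set_option autoImplicit false
set_option maxHeartbeats 2000000

open Complex Filter Topology Set MeasureTheory

namespace Pool.Agent.Y763.SJ

open Pool.Agent.H295R2 (Mx)
open Pool.Agent.Y763.GC (DD DD_eq DD_LL DD_bd Mx_eq)

/-- floors are constant to the right -/
lemma right_const (v₀ l : ℝ) : ∃ ε : ℝ, 0 < ε ∧ ∀ v, v₀ ≤ v → v < v₀ + ε →
    Mx (Real.exp (v + l)) = Mx (Real.exp (v₀ + l)) := by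
  obtain ⟨n, hn⟩ : ∃ n : ℕ, n = ⌊Real.exp (v₀ + l)⌋₊ := ⟨_, rfl⟩
  have h1 : Real.exp (v₀ + l) < n + 1 := by rw [hn]; exact Nat.lt_floor_add_one _
  have hc : ContinuousAt (fun v : ℝ => Real.exp (v + l)) v₀ := by fun_prop
  have h2 : ∀ᶠ v in 𝓝 v₀, Real.exp (v + l) < n + 1 := hc.eventually_lt continuousAt_const h1
  obtain ⟨ε, hε, h3⟩ := Metric.eventually_nhds_iff.1 h2
  refine ⟨ε, hε, fun v hv1 hv2 => ?_⟩
  have h4 : Real.exp (v + l) < n + 1 := h3 (by rw [Real.dist_eq, abs_lt]; constructor <;> linarith)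
  have h5 : ⌊Real.exp (v + l)⌋₊ = n := by
    rw [Nat.floor_eq_iff (Real.exp_pos _).le]
    refine ⟨?_, h4⟩
    have h6 : (n : ℝ) ≤ Real.exp (v₀ + l) := by rw [hn]; exact Nat.floor_le (Real.exp_pos _).le
    exact h6.trans (Real.exp_le_exp.2 (by linarith))
  rw [Mx_eq, Mx_eq, h5, ← hn]

/-- continuity points with nearly the same value -/
lemma cont_pt {T : ℝ} (hT : 1 ≤ T) (v₀ : ℝ) {δ : ℝ} (hδ : 0 < δ) :
    ∃ v, v₀ < v ∧ ContinuousAt (DT T) v ∧ |DT T v - DT T v₀| ≤ δ := by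
  obtain ⟨ε1, h1, g1⟩ := right_const v₀ (lb T)
  obtain ⟨ε2, h2, g2⟩ := right_const v₀ (la T)
  obtain ⟨c, hc⟩ : ∃ c : ℝ, c = Mx (Real.exp (v₀ + lb T)) - Mx (Real.exp (v₀ + la T)) := ⟨_, rfl⟩
  obtain ⟨ε, hε⟩ : ∃ ε : ℝ, ε = min ε1 ε2 := ⟨_, rfl⟩
  have hε0 : 0 < ε := by rw [hε]; exact lt_min h1 h2
  have heq : ∀ v, v₀ ≤ v → v < v₀ + ε → DT T v = c * Real.exp (-(v / 2)) := by
    intro v hv1 hv2
    rw [DT_eq hT, g1 v hv1 (by linarith [min_le_left ε1 ε2]), g2 v hv1 (by linarith [min_le_right ε1 ε2]), ← hc]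
  have hcont : Continuous fun v : ℝ => c * Real.exp (-(v / 2)) := by fun_prop
  have h3 : ∀ᶠ v in 𝓝 v₀, |c * Real.exp (-(v / 2)) - c * Real.exp (-(v₀ / 2))| < δ := by
    have := Metric.tendsto_nhds.1 (hcont.tendsto v₀) δ hδ
    simpa [Real.dist_eq] using this
  obtain ⟨ε3, h4, g3⟩ := Metric.eventually_nhds_iff.1 h3
  obtain ⟨r, hr⟩ : ∃ r : ℝ, r = min ε ε3 / 2 := ⟨_, rfl⟩
  have hm : 0 < min ε ε3 := lt_min hε0 h4
  have hr0 : 0 < r := by rw [hr]; positivity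
  have hr1 : r < ε := by rw [hr]; linarith [min_le_left ε ε3]
  have hr2 : r < ε3 := by rw [hr]; linarith [min_le_right ε ε3]
  refine ⟨v₀ + r, by linarith, ?_, ?_⟩
  · refine hcont.continuousAt.congr ?_
    filter_upwards [Ioo_mem_nhds (show v₀ < v₀ + r by linarith) (show v₀ + r < v₀ + ε by linarith)] with v hv
    exact (heq v hv.1.le hv.2).symm
  · rw [heq _ (by linarith) (by linarith), heq v₀ le_rfl (by linarith)]
    exact (g3 (by rw [Real.dist_eq, abs_lt]; constructor <;> linarith)).le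

/-- all points -/
theorem core2 : ∃ C : ℝ, 0 < C ∧ ∀ T B : ℝ, 1 ≤ T → (∀ v, 0 ≤ v → |DT T v| ≤ B) →
    ∀ v₀ : ℝ, 0 ≤ v₀ → ∀ δ : ℝ, 0 < δ → ∀ s : ℝ, |s| = 1 →
    ∃ c : ℝ, 0 < c ∧ ∀ᶠ V : ℝ in atTop,
      c * V ≤ (volume ({v : ℝ | s * DT T v₀ - C / √T - δ ≤ s * DT T v} ∩ Icc 0 V)).toReal := by
  obtain ⟨C, hC, h⟩ := core t_QQ t_FG
  refine ⟨C, hC, fun T B hT hB v₀ hv₀ δ hδ s hs => ?_⟩
  obtain ⟨v₁, h1, h2, h3⟩ := cont_pt hT v₀ (half_pos hδ)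
  obtain ⟨c, hc, hev⟩ := h T B hT hB v₁ (by linarith) h2 (δ / 2) (half_pos hδ) s hs
  refine ⟨c, hc, hev.mono fun V hV => hV.trans ?_⟩
  refine ENNReal.toReal_mono ?_ (measure_mono ?_)
  · refine ne_of_lt (lt_of_le_of_lt (measure_mono inter_subset_right) ?_)
    rw [Real.volume_Icc]
    exact ENNReal.ofReal_lt_top
  · rintro v ⟨a1, a2⟩
    refine ⟨?_, a2⟩
    have h4 : |s * DT T v₁ - s * DT T v₀| ≤ δ / 2 := by rw [← mul_sub, abs_mul, hs, one_mul]; exact h3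
    have h5 := (abs_le.1 h4).1
    have a3 : s * DT T v₁ - C / √T - δ / 2 ≤ s * DT T v := a1
    show s * DT T v₀ - C / √T - δ ≤ s * DT T v
    linarith

/-- the unconditional form -/
theorem core3 : ∃ C : ℝ, 0 < C ∧ (∀ T B : ℝ, 1 ≤ T → (∀ v, 0 ≤ v → |DT T v| ≤ B) →
    ∀ v₀ : ℝ, 0 ≤ v₀ → ∀ δ : ℝ, 0 < δ → ∀ s : ℝ, |s| = 1 →
    ∃ c : ℝ, 0 < c ∧ ∀ᶠ V : ℝ in atTop,
      c * V ≤ (volume ({v : ℝ | s * DT T v₀ - C / √T - δ ≤ s * DT T v} ∩ Icc 0 V)).toReal) ∧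
    ∀ T : ℝ, 1 ≤ T → ∀ v₀ : ℝ, 0 ≤ v₀ → ∀ δ : ℝ, 0 < δ →
      ∃ᶠ v : ℝ in atTop, |DT T v₀| - C / √T - δ ≤ |DT T v| := by
  obtain ⟨C, hC, h⟩ := core2
  refine ⟨C, hC, h, fun T hT v₀ hv₀ δ hδ => ?_⟩
  by_contra hcon
  rw [not_frequently] at hcon
  obtain ⟨v₁, hv₁⟩ := eventually_atTop.1 hcon
  obtain ⟨R, hR⟩ : ∃ R : ℝ, R = |DT T v₀| - C / √T - δ := ⟨_, rfl⟩
  have hlt : ∀ v, v₁ ≤ v → |DT T v| < R := fun v hv => by
    have := hv₁ v hv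
    rw [← hR] at this
    exact not_le.1 this
  -- boundedness
  have hB : ∀ v, 0 ≤ v → |DT T v| ≤ max R (12 * Real.exp v₁) := by
    intro v _
    rcases le_total v₁ v with h1 | h1
    · exact (hlt v h1).le.trans (le_max_left _ _)
    · refine (DT_bd hT v).trans (le_trans ?_ (le_max_right _ _))
      have := Real.exp_le_exp.2 h1
      linarith
  obtain ⟨s, hs, hs2⟩ : ∃ s : ℝ, |s| = 1 ∧ s * DT T v₀ = |DT T v₀| := by
    rcases le_total 0 (DT T v₀) with h1 | h1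
    · exact ⟨1, by simp, by rw [one_mul, abs_of_nonneg h1]⟩
    · exact ⟨-1, by simp, by rw [abs_of_nonpos h1]; ring⟩
  obtain ⟨c, hc, hev⟩ := h T _ hT hB v₀ hv₀ δ hδ s hs
  rw [hs2, ← hR] at hev
  obtain ⟨V, hV1, hV2, hV3⟩ := (hev.and ((eventually_gt_atTop (|v₁| / c)).and (eventually_ge_atTop 0))).exists
  have h2 : ({v : ℝ | R ≤ s * DT T v} ∩ Icc 0 V) ⊆ Icc 0 |v₁| := by
    rintro v ⟨a1, a2⟩
    refine ⟨a2.1, ?_⟩
    by_contra hcon2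
    push Not at hcon2
    have h3 := hlt v (by linarith [le_abs_self v₁])
    have h4 : s * DT T v ≤ |DT T v| := by
      calc s * DT T v ≤ |s * DT T v| := le_abs_self _
        _ = |DT T v| := by rw [abs_mul, hs, one_mul]
    have a3 : R ≤ s * DT T v := a1
    linarith
  have h3 : (volume ({v : ℝ | R ≤ s * DT T v} ∩ Icc 0 V)).toReal ≤ |v₁| := by
    refine (ENNReal.toReal_mono ?_ (measure_mono h2)).trans ?_
    · rw [Real.volume_Icc]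
      exact ENNReal.ofReal_ne_top
    · rw [Real.volume_Icc, sub_zero, ENNReal.toReal_ofReal (abs_nonneg _)]
  rw [div_lt_iff₀ hc] at hV2
  linarith

/-! ## The statement in terms of `x` -/

/-- the Mertens function -/
noncomputable def M (x : ℝ) : ℝ := ∑ n ∈ Finset.Icc 1 ⌊x⌋₊, ((ArithmeticFunction.moebius n : ℤ) : ℝ)

/-- `(M(x + x/(2T)) - M(x - x/(2T))) / √x` -/
noncomputable def Del (T x : ℝ) : ℝ := (M (x + x / (2 * T)) - M (x - x / (2 * T))) / √x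

lemma Del_exp {T : ℝ} (hT : 1 ≤ T) (v : ℝ) : Del T (Real.exp v) = DT T v := by
  obtain ⟨h1, h2, h3, h4⟩ := ab hT
  unfold DT Del
  rw [DD_eq (by linarith) (by linarith), Mx_eq, Mx_eq]
  unfold M
  have e1 : Real.exp v + Real.exp v / (2 * T) = (1 + 1 / (2 * T)) * Real.exp v := by ring
  have e2 : Real.exp v - Real.exp v / (2 * T) = (1 - 1 / (2 * T)) * Real.exp v := by ring
  have e3 : √(Real.exp v) = Real.exp (v / 2) := by
    rw [Real.sqrt_eq_iff_mul_self_eq_of_pos (Real.exp_pos _), ← Real.exp_add]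
    congr 1
    ring
  rw [e1, e2, e3, Real.exp_neg, div_eq_mul_inv]

lemma Del_one {T : ℝ} (hT : 1 ≤ T) : Del T 1 = 1 := by
  obtain ⟨h1, h2, h3, h4⟩ := ab hT
  unfold Del M
  have e1 : ⌊(1:ℝ) + 1 / (2 * T)⌋₊ = 1 := by
    rw [Nat.floor_eq_iff (by linarith)]
    constructor
    · push_cast; linarith
    · push_cast; linarith
  have e2 : ⌊(1:ℝ) - 1 / (2 * T)⌋₊ = 0 := by
    rw [Nat.floor_eq_zero]
    exact h2
  rw [e1, e2]
  simp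

/-- **the theorem** -/
theorem final : ∃ C : ℝ, 0 < C ∧ ∀ T : ℝ, 1 ≤ T →
    (∃ᶠ x : ℝ in atTop, 1 - C / √T ≤ |Del T x|) ∧
    (∀ x₀ : ℝ, 1 ≤ x₀ → ∀ δ : ℝ, 0 < δ → ∃ᶠ x : ℝ in atTop, |Del T x₀| - C / √T - δ ≤ |Del T x|) ∧
    ((∃ B : ℝ, ∀ x : ℝ, 1 ≤ x → |Del T x| ≤ B) → ∀ x₀ : ℝ, 1 ≤ x₀ → ∀ δ : ℝ, 0 < δ →
      (∃ c : ℝ, 0 < c ∧ ∀ᶠ V : ℝ in atTop, c * V ≤
        (volume {v : ℝ | 0 ≤ v ∧ v ≤ V ∧ Del T x₀ - C / √T - δ ≤ Del T (Real.exp v)}).toReal) ∧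
      ∃ c : ℝ, 0 < c ∧ ∀ᶠ V : ℝ in atTop, c * V ≤
        (volume {v : ℝ | 0 ≤ v ∧ v ≤ V ∧ Del T (Real.exp v) ≤ Del T x₀ + C / √T + δ}).toReal) := by
  obtain ⟨C, hC, h1, h2⟩ := core3
  refine ⟨C + 1, by linarith, fun T hT => ?_⟩
  have hT0 : 0 < √T := Real.sqrt_pos.2 (by linarith)
  have hCT : C / √T ≤ (C + 1) / √T := by gcongr; linarith
  have hx : ∀ x : ℝ, 1 ≤ x → Del T x = DT T (Real.log x) := by
    intro x hx
    rw [← Del_exp hT, Real.exp_log (by linarith)]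
  have hfreq : ∀ R : ℝ, (∃ᶠ v : ℝ in atTop, R ≤ |DT T v|) → ∃ᶠ x : ℝ in atTop, R ≤ |Del T x| := by
    intro R hR
    refine Real.tendsto_exp_atTop.frequently (hR.mono fun v hv => ?_)
    rw [Del_exp hT]
    exact hv
  have hsec : ∀ x₀ : ℝ, 1 ≤ x₀ → ∀ δ : ℝ, 0 < δ → ∃ᶠ x : ℝ in atTop, |Del T x₀| - C / √T - δ ≤ |Del T x| := by
    intro x₀ hx₀ δ hδ
    refine hfreq _ ?_
    rw [hx x₀ hx₀]
    exact h2 T hT (Real.log x₀) (Real.log_nonneg hx₀) δ hδ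
  refine ⟨?_, fun x₀ hx₀ δ hδ => ?_, ?_⟩
  · have h3 := hsec 1 le_rfl (1 / √T) (by positivity)
    rw [Del_one hT, abs_one] at h3
    refine h3.mono fun x hx => le_trans (le_of_eq ?_) hx
    ring
  · exact (hsec x₀ hx₀ δ hδ).mono fun x hx => by linarith
  · rintro ⟨B, hB⟩ x₀ hx₀ δ hδ
    have hB' : ∀ v, 0 ≤ v → |DT T v| ≤ B := by
      intro v hv
      rw [← Del_exp hT]
      exact hB _ (Real.one_le_exp hv)
    have key : ∀ s : ℝ, |s| = 1 → ∃ c : ℝ, 0 < c ∧ ∀ᶠ V : ℝ in atTop, c * V ≤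
        (volume {v : ℝ | 0 ≤ v ∧ v ≤ V ∧ s * Del T x₀ - (C + 1) / √T - δ ≤ s * Del T (Real.exp v)}).toReal := by
      intro s hs
      obtain ⟨c, hc, hev⟩ := h1 T B hT hB' (Real.log x₀) (Real.log_nonneg hx₀) δ hδ s hs
      refine ⟨c, hc, hev.mono fun V hV => hV.trans ?_⟩
      refine ENNReal.toReal_mono ?_ (measure_mono ?_)
      · refine ne_of_lt (lt_of_le_of_lt (measure_mono (t := Icc 0 V) fun v hv => ⟨hv.1, hv.2.1⟩) ?_)
        rw [Real.volume_Icc]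
        exact ENNReal.ofReal_lt_top
      · rintro v ⟨a1, a2⟩
        refine ⟨a2.1, a2.2, ?_⟩
        have a3 : s * DT T (Real.log x₀) - C / √T - δ ≤ s * DT T v := a1
        rw [hx x₀ hx₀, Del_exp hT]
        linarith
    constructor
    · obtain ⟨c, hc, hev⟩ := key 1 (by simp)
      refine ⟨c, hc, ?_⟩
      simpa only [one_mul] using hev
    · obtain ⟨c, hc, hev⟩ := key (-1) (by simp)
      refine ⟨c, hc, hev.mono fun V hV => hV.trans (le_of_eq ?_)⟩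
      congr 2
      ext v
      simp only [Set.mem_setOf_eq]
      constructor
      · rintro ⟨a1, a2, a3⟩
        exact ⟨a1, a2, by linarith⟩
      · rintro ⟨a1, a2, a3⟩
        exact ⟨a1, a2, by linarith⟩

end Pool.Agent.Y763.SJ
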