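import Pool.Agent.Y763.SJ.Stm

/-! Project SJ, part LIM: upper limit of Gaussian means. -/

set_option autoImplicit false

open Complex Filter Topology Set MeasureTheory

namespace Pool.Agent.Y763.SJ

namespace LIM

theorem gS_eq (S : ℝ) : gS S = fun x => S / (2 * √Real.pi) * Real.exp (-(S ^ 2 / 4) * x ^ 2) := by
  funext x
  unfold gS
  congr 2
  ring

theorem gS_nonneg {S : ℝ} (hS : 0 < S) (x : ℝ) : 0 ≤ gS S x := by
  unfold gS
  positivity

theorem integrable_gS {S : ℝ} (hS : 0 < S) : Integrable (gS S) := by
  rw [gS_eq]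
  exact (integrable_exp_neg_mul_sq (by positivity : (0 : ℝ) < S ^ 2 / 4)).const_mul _

theorem continuous_gS (S : ℝ) : Continuous (gS S) := by
  unfold gS
  fun_prop

theorem integral_gS {S : ℝ} (hS : 0 < S) : ∫ x, gS S x = 1 := by
  rw [gS_eq]
  rw [integral_const_mul, integral_gaussian]
  have h1 : Real.pi / (S ^ 2 / 4) = (2 * √Real.pi / S) ^ 2 := by
    rw [div_pow, mul_pow, Real.sq_sqrt Real.pi_pos.le]
    field_simp
    ring
  rw [h1, Real.sqrt_sq (by positivity)]
  have : √Real.pi ≠ 0 := (Real.sqrt_pos.2 Real.pi_pos).ne'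
  field_simp

theorem integrable_gS_exp {S : ℝ} (hS : 0 < S) : Integrable fun x => gS S x * Real.exp (-x) := by
  have h1 : Integrable fun x : ℝ => S / (2 * √Real.pi) * Real.exp (2 / S ^ 2) *
      Real.exp (-(S ^ 2 / 8) * x ^ 2) :=
    (integrable_exp_neg_mul_sq (by positivity : (0 : ℝ) < S ^ 2 / 8)).const_mul _
  refine h1.mono' ((continuous_gS S).mul (by fun_prop)).aestronglyMeasurable ?_
  refine Eventually.of_forall fun x => ?_
  rw [Real.norm_of_nonneg (mul_nonneg (gS_nonneg hS x) (Real.exp_pos _).le)]
  unfold gS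
  rw [mul_assoc, mul_assoc, ← Real.exp_add, ← Real.exp_add]
  refine mul_le_mul_of_nonneg_left (Real.exp_le_exp.2 ?_) (by positivity)
  have h2 : 0 ≤ (S * x / 4 + 1 / S) ^ 2 := sq_nonneg _
  have h3 : (S * x / 4 + 1 / S) ^ 2 = S ^ 2 * x ^ 2 / 16 + x / 2 + 1 / S ^ 2 := by
    field_simp
    ring
  rw [h3] at h2
  have h4 : 2 / S ^ 2 = 2 * (1 / S ^ 2) := by ring
  rw [h4]
  nlinarith [h2]

end LIM

open LIM in
theorem t_LIM : S_LIM := by
  intro D K A v₁ S hD hK hA hS
  have hK0 : 0 ≤ K := by
    have h := (abs_nonneg _).trans (hK 0)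
    rw [Real.exp_zero, mul_one] at h
    exact h
  have hint : ∀ v, Integrable fun x => gS S x * D (v - x) := by
    intro v
    have h1 : Integrable fun x => K * Real.exp v * (gS S x * Real.exp (-x)) :=
      (integrable_gS_exp hS).const_mul _
    refine h1.mono' ?_ ?_
    · exact (continuous_gS S).measurable.mul
        (hD.comp (measurable_const.sub measurable_id)) |>.aestronglyMeasurable
    · refine Eventually.of_forall fun x => ?_
      rw [norm_mul, Real.norm_of_nonneg (gS_nonneg hS x), Real.norm_eq_abs]
      calc gS S x * |D (v - x)| ≤ gS S x * (K * Real.exp (v - x)) :=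
            mul_le_mul_of_nonneg_left (hK _) (gS_nonneg hS x)
        _ = K * Real.exp v * (gS S x * Real.exp (-x)) := by
            rw [sub_eq_add_neg, Real.exp_add]
            ring
  refine ⟨hint, fun η hη => ?_⟩
  set C : ℝ := K * Real.exp v₁ + |A| with hC
  have hC0 : 0 ≤ C := by positivity
  have hlim : Tendsto (fun v : ℝ => (A + C) - C * ∫ x in Iic (v - v₁), gS S x) atTop
      (𝓝 ((A + C) - C * 1)) := by
    refine tendsto_const_nhds.sub (Tendsto.const_mul _ ?_)
    rw [← integral_gS hS]
    have hc : AECover volume atTop fun v : ℝ => Iic (v - v₁) :=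
      aecover_Iic (tendsto_atTop_add_const_right _ _ tendsto_id)
    exact hc.integral_tendsto_of_countably_generated (integrable_gS hS)
  have hlt : (A + C) - C * 1 < A + η := by linarith
  filter_upwards [hlim.eventually (gt_mem_nhds hlt)] with v hv
  refine le_trans ?_ hv.le
  have hind : Integrable fun x => (Iic (v - v₁)).indicator (gS S) x :=
    (integrable_gS hS).indicator measurableSet_Iic
  have h2 : ∫ x, gS S x * D (v - x) ≤
      ∫ x, ((A + C) * gS S x - C * (Iic (v - v₁)).indicator (gS S) x) := by
    refine integral_mono (hint v) (((integrable_gS hS).const_mul _).sub (hind.const_mul _)) ?_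
    intro x
    by_cases hx : x ∈ Iic (v - v₁)
    · simp only [indicator_of_mem hx]
      have h3 : D (v - x) ≤ A := hA _ (by
        have : x ≤ v - v₁ := hx
        linarith)
      have h4 := mul_le_mul_of_nonneg_left h3 (gS_nonneg hS x)
      linarith
    · simp only [indicator_of_notMem hx]
      have hx' : v - v₁ < x := not_le.1 hx
      have h3 : D (v - x) ≤ K * Real.exp v₁ :=
        (le_abs_self _).trans ((hK _).trans (mul_le_mul_of_nonneg_left
          (Real.exp_le_exp.2 (by linarith)) hK0))
      have h5 : D (v - x) ≤ A + C := by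
        have := neg_abs_le A
        rw [hC]
        linarith
      have h4 := mul_le_mul_of_nonneg_left h5 (gS_nonneg hS x)
      linarith
  refine h2.trans (le_of_eq ?_)
  rw [integral_sub ((integrable_gS hS).const_mul _) (hind.const_mul _), integral_const_mul,
    integral_const_mul, integral_gS hS, integral_indicator measurableSet_Iic, mul_one]

end Pool.Agent.Y763.SJ

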