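import Pool.Agent.Y763.SJ.G
import Pool.Agent.Y763.SJ.LIM
import Pool.Agent.Y853.HM.Fin

/-! One-sided boundedness. -/

set_option autoImplicit false
set_option maxHeartbeats 2000000

open Complex Filter Topology Set MeasureTheory

namespace Pool.Agent.Y763.SJ

open Pool.Agent.Y23 (Dec JJ JJ_eq JJ_norm dec_int dec_cont dec_line zsummable mu_pos exp_neg_le_inv)
open Pool.Agent.W120.WM (ZC NT)
open Pool.Agent.Y763.HB (muc ex_lim)
open Pool.Agent.H295R2 (Mx)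
open Pool.Agent.Y763.GC (DD DD_eq DD_LL DD_bd Mx_eq ft_bd ft_neg)
open Pool.Agent.TH223.AP (ft mn)

/-- a one-sided bound for the differences is a one-sided bound for `M` -/
lemma up_bound {T B s : ℝ} (hT : 1 ≤ T) (hs : |s| = 1) (hB : ∀ v, 0 ≤ v → s * DT T v ≤ B) :
    ∃ C : ℝ, 0 < C ∧ ∀ w : ℝ, s * ft w ≤ C := by
  obtain ⟨h1, h2, h3, h4⟩ := ab hT
  have hl := la_lt_lb hT
  obtain ⟨a, ha⟩ : ∃ a : ℝ, a = 1 - 1 / (2 * T) := ⟨_, rfl⟩
  obtain ⟨b, hb⟩ : ∃ b : ℝ, b = 1 + 1 / (2 * T) := ⟨_, rfl⟩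
  have hla : la T = Real.log a := by rw [ha]; rfl
  have hlb : lb T = Real.log b := by rw [hb]; rfl
  rw [← ha] at h1 h2
  rw [← hb] at h3 h4
  have ha0 : 0 < √a := Real.sqrt_pos.2 (by linarith)
  have hb0 : 0 < √b := Real.sqrt_pos.2 (by linarith)
  have hab : √a < √b := Real.sqrt_lt_sqrt (by linarith) (by linarith)
  have hD : ∀ v, DT T v = √b * ft (v + lb T) - √a * ft (v + la T) := by
    intro v
    rw [hla, hlb, ha, hb]
    rfl
  obtain ⟨C, hC⟩ : ∃ C : ℝ, C = max 3 (|B| / (√b - √a)) := ⟨_, rfl⟩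
  have hC3 : 3 ≤ C := hC ▸ le_max_left _ _
  have hC4 : |B| ≤ (√b - √a) * C := by
    have : |B| / (√b - √a) ≤ C := hC ▸ le_max_right _ _
    rw [div_le_iff₀ (by linarith)] at this
    linarith
  have habs : ∀ y : ℝ, s * y ≤ |y| := fun y => by
    calc s * y ≤ |s * y| := le_abs_self _
      _ = |y| := by rw [abs_mul, hs, one_mul]
  have hlb1 : lb T ≤ 1 := by
    rw [hlb]
    have := Real.log_le_sub_one_of_pos (show 0 < b by linarith)
    linarith
  have key : ∀ n : ℕ, ∀ w : ℝ, w ≤ lb T + n * (lb T - la T) → s * ft w ≤ C := by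
    intro n
    induction n with
    | zero =>
      intro w hw
      rw [Nat.cast_zero, zero_mul, add_zero] at hw
      have h5 := ft_bd (hw.trans hlb1)
      have h6 := habs (ft w)
      have h7 := Real.exp_one_lt_d9
      linarith
    | succ n ih =>
      intro w hw
      rcases le_total w (lb T) with h5 | h5
      · have h5 := ft_bd (h5.trans hlb1)
        have h6 := habs (ft w)
        have h7 := Real.exp_one_lt_d9
        linarith
      · have h6 := hB (w - lb T) (by linarith)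
        rw [hD] at h6
        have e1 : w - lb T + lb T = w := by ring
        rw [e1] at h6
        have h7 := ih (w - lb T + la T) (by push_cast at hw; linarith)
        have h8 : √b * (s * ft w) ≤ B + √a * (s * ft (w - lb T + la T)) := by nlinarith
        have h9 : √b * (s * ft w) ≤ √b * C := by
          have := mul_le_mul_of_nonneg_left h7 ha0.le
          have := le_abs_self B
          linarith
        exact le_of_mul_le_mul_left h9 hb0
  refine ⟨C, by linarith, fun w => ?_⟩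
  have hd : 0 < lb T - la T := by linarith
  obtain ⟨n, hn⟩ := exists_nat_ge ((w - lb T) / (lb T - la T))
  refine key n w ?_
  rw [div_le_iff₀ hd] at hn
  linarith

/-- consequences for the zeros -/
theorem zeros_of_up {s C : ℝ} (hs : s = 1 ∨ s = -1) (hC : 0 < C) (h : ∀ w : ℝ, s * ft w ≤ C) :
    (∀ ρ ∈ NT, ρ.re = 1 / 2 ∧ deriv riemannZeta ρ ≠ 0) ∧ ∃ A : ℝ, ∀ ρ ∈ NT, 1 / ‖ρ * deriv riemannZeta ρ‖ ≤ A := by
  have h1 : Pool.Agent.Y853.HM.lowerMean s ≤ ENNReal.ofReal C := by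
    refine Pool.Agent.Y853.HM.half_L1 hs hC ?_
    filter_upwards [eventually_ge_atTop (1:ℝ)] with x hx
    have hpt : ∀ u ∈ Icc (1:ℝ) x, max (s * Mx u) 0 * u ^ (-(3 / 2) : ℝ) ≤ C * u⁻¹ := by
      intro u hu
      have hu0 : 0 < u := by linarith [hu.1]
      have h2 := h (Real.log u)
      have h3 : ft (Real.log u) = Mx u * Real.exp (-(Real.log u / 2)) := by
        have : ft (Real.log u) = Mx (Real.exp (Real.log u)) * Real.exp (-(Real.log u / 2)) := rfl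
        rw [this, Real.exp_log hu0]
      have h4 : Real.exp (-(Real.log u / 2)) = u ^ (-(1 / 2) : ℝ) := by
        rw [Real.rpow_def_of_pos hu0]
        congr 1
        ring
      rw [h3, h4, ← mul_assoc] at h2
      have h5 : max (s * Mx u) 0 * u ^ (-(1 / 2) : ℝ) ≤ C := by
        rw [max_mul_of_nonneg _ _ (by positivity), zero_mul]
        exact max_le h2 hC.le
      have h6 : u ^ (-(3 / 2) : ℝ) = u ^ (-(1 / 2) : ℝ) * u⁻¹ := by
        rw [← Real.rpow_neg_one, ← Real.rpow_add hu0]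
        norm_num
      rw [h6, ← mul_assoc]
      exact mul_le_mul_of_nonneg_right h5 (by positivity)
    have hint : IntervalIntegrable (fun u : ℝ => C * u⁻¹) volume 1 x := by
      refine ContinuousOn.intervalIntegrable ?_
      rw [uIcc_of_le hx]
      refine continuousOn_const.mul (continuousOn_inv₀.mono fun u hu => ?_)
      have := hu.1
      simp only [Set.mem_compl_iff, Set.mem_singleton_iff]
      linarith
    have hval : ∫ u in (1:ℝ)..x, C * u⁻¹ = C * Real.log x := by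
      rw [intervalIntegral.integral_const_mul, integral_inv_of_pos one_pos (by linarith), div_one]
    rw [← hval]
    by_cases hi : IntervalIntegrable (fun u : ℝ => max (s * Mx u) 0 * u ^ (-(3 / 2) : ℝ)) volume 1 x
    · exact intervalIntegral.integral_mono_on hx hi hint hpt
    · have h7 : ∫ u in (1:ℝ)..x, max (s * Mx u) 0 * u ^ (-(3 / 2) : ℝ) = 0 := intervalIntegral.integral_undef hi
      have h8 : 0 ≤ ∫ u in (1:ℝ)..x, C * u⁻¹ := by
        rw [hval]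
        exact mul_nonneg hC.le (Real.log_nonneg hx)
      exact h7.le.trans h8
  have hA : Pool.Agent.Y853.HM.lowerMean 1 ≠ ⊤ := by
    rcases hs with rfl | rfl
    · exact ne_top_of_le_ne_top ENNReal.ofReal_ne_top h1
    · rw [Pool.Agent.Y853.HM.low_eq]
      exact ne_top_of_le_ne_top ENNReal.ofReal_ne_top h1
  exact ⟨fun ρ hρ => Pool.Agent.Y853.HM.zeros_A hA hρ, _, fun ρ hρ => Pool.Agent.Y853.HM.coef_A hA hρ⟩

lemma ex_summ2 (hsim : ∀ ρ ∈ NT, deriv riemannZeta ρ ≠ 0) {A : ℝ} (hA : ∀ ρ ∈ NT, 1 / ‖ρ * deriv riemannZeta ρ‖ ≤ A)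
    {h : ℂ → ℂ} {M δ : ℝ} (hδ : 0 < δ) (hM : 0 ≤ M) (hh : Dec h M δ) :
    Summable fun ρ : NT => ‖h ((ρ : ℂ) - 1 / 2) / deriv riemannZeta ρ‖ := by
  obtain ⟨S, hS⟩ : ∃ S : ℝ, S = |A| := ⟨_, rfl⟩
  have hS0 : 0 ≤ S := by rw [hS]; positivity
  have h1 : ∀ ρ : NT, 1 / ‖deriv riemannZeta (ρ : ℂ)‖ ≤ (1 + S) * ‖(ρ : ℂ)‖ := by
    intro ρ
    have h2 := hA ρ ρ.2
    have h3 : 0 < ‖deriv riemannZeta (ρ : ℂ)‖ := norm_pos_iff.2 (hsim ρ ρ.2)
    have h4 : 0 < ‖(ρ : ℂ)‖ := norm_pos_iff.2 (Pool.Agent.Y763.HB.NT_ne_zero ρ.2)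
    have h6 : 1 / ‖(ρ : ℂ) * deriv riemannZeta ρ‖ ≤ 1 + S := by
      rw [hS]
      linarith [le_abs_self A]
    have h7 : 1 / ‖deriv riemannZeta (ρ : ℂ)‖ = 1 / ‖(ρ : ℂ) * deriv riemannZeta ρ‖ * ‖(ρ : ℂ)‖ := by
      rw [norm_mul]
      field_simp
    rw [h7]
    gcongr
  have hz := zsummable 0
  refine Summable.of_nonneg_of_le (fun ρ => norm_nonneg _) (fun ρ => ?_)
    (hz.mul_left (M * (1 + S) * (3 * (1 + 2 / δ) ^ 2)))
  have e2 : ((ρ : ℂ) - 1 / 2).im = (ρ : ℂ).im := by simp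
  have h2 := hh.2 ((ρ : ℂ) - 1 / 2) (by
    have e : ((ρ : ℂ) - 1 / 2).re = (ρ : ℂ).re - 1 / 2 := by simp
    rw [e, abs_le]
    have := ρ.2
    constructor <;> linarith [this.2.1, this.2.2])
  rw [e2] at h2
  obtain ⟨t, ht⟩ : ∃ t : ℝ, t = (ρ : ℂ).im := ⟨_, rfl⟩
  have h3 : ‖(ρ : ℂ)‖ ≤ 1 + |t| := by
    refine (Complex.norm_le_abs_re_add_abs_im _).trans ?_
    have := ρ.2
    rw [abs_of_pos this.2.1, ht]
    linarith [this.2.2]
  have h4 := h1 ρ
  have h5 : (1:ℝ) ≤ Pool.Agent.Y23.mu ρ := by exact_mod_cast mu_pos ρ.2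
  rw [← ht] at h2 ⊢
  have h6 : (1 + |t|) * Real.exp (-δ * t ^ 2) ≤ 3 * (1 + 2 / δ) ^ 2 * (1 / (1 + (t - 0) ^ 2)) := by
    have e1 : Real.exp (-δ * t ^ 2) = Real.exp (-(δ / 2) * t ^ 2) * Real.exp (-(δ / 2) * t ^ 2) := by
      rw [← Real.exp_add]
      congr 1
      ring
    have e3 := exp_neg_le_inv (x := t) (half_pos hδ)
    have e4 : 1 + 1 / (δ / 2) = 1 + 2 / δ := by field_simp
    rw [e4] at e3
    rw [e1, sub_zero]
    have hp : 0 < 1 + t ^ 2 := by positivity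
    have hq : 1 + |t| ≤ 3 * (1 + t ^ 2) := by
      have := sq_abs t
      nlinarith [sq_nonneg (|t| - 1), abs_nonneg t]
    calc (1 + |t|) * (Real.exp (-(δ / 2) * t ^ 2) * Real.exp (-(δ / 2) * t ^ 2)) ≤
          (3 * (1 + t ^ 2)) * (((1 + 2 / δ) * (1 / (1 + t ^ 2))) * ((1 + 2 / δ) * (1 / (1 + t ^ 2)))) := by gcongr
      _ = 3 * (1 + 2 / δ) ^ 2 * (1 / (1 + t ^ 2)) := by
          field_simp
  rw [norm_div, div_eq_mul_one_div]
  calc ‖h ((ρ : ℂ) - 1 / 2)‖ * (1 / ‖deriv riemannZeta (ρ : ℂ)‖) ≤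
        (M * Real.exp (-δ * t ^ 2)) * ((1 + S) * (1 + |t|)) := by
        refine mul_le_mul h2 (h4.trans (by gcongr)) (by positivity) (by positivity)
    _ = M * (1 + S) * ((1 + |t|) * Real.exp (-δ * t ^ 2)) := by ring
    _ ≤ M * (1 + S) * (3 * (1 + 2 / δ) ^ 2 * (1 / (1 + (t - 0) ^ 2))) := by gcongr
    _ = (M * (1 + S) * (3 * (1 + 2 / δ) ^ 2)) * (1 * (1 / (1 + (t - 0) ^ 2))) := by ring
    _ ≤ (M * (1 + S) * (3 * (1 + 2 / δ) ^ 2)) * ((Pool.Agent.Y23.mu ρ : ℝ) * (1 / (1 + (t - 0) ^ 2))) := by gcongr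

theorem formula2 (hline : ∀ ρ ∈ NT, ρ.re = 1 / 2 ∧ deriv riemannZeta ρ ≠ 0) {A : ℝ}
    (hA : ∀ ρ ∈ NT, 1 / ‖ρ * deriv riemannZeta ρ‖ ≤ A) {T S v : ℝ} (hT : 1 ≤ T) (hS : 0 < S) :
    (Summable fun ρ : NT => ‖cf T S ρ‖) ∧
    ∑' ρ : NT, cf T S ρ * cexp (I * ((ρ : ℂ).im : ℝ) * (v : ℝ)) =
      (GG T S v : ℂ) - ((2 * Real.pi : ℝ) : ℂ)⁻¹ * LL T S v := by
  obtain ⟨K, hK, hq⟩ := t_QQ
  obtain ⟨hd, hrep, hb, -⟩ := hq T hT
  have hsim : ∀ ρ ∈ NT, deriv riemannZeta ρ ≠ 0 := fun ρ hρ => (hline ρ hρ).2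
  refine ⟨ex_summ2 hsim hA (by positivity) (by positivity) (hh_dec (v := 0) hK hS hd hb), ?_⟩
  have hdec := hh_dec (v := v) hK hS hd hb
  have h1 := ex_lim hsim (by positivity) (by positivity) hdec
    (ex_summ2 hsim hA (by positivity) (by positivity) hdec).of_norm
  rw [series t_QQ t_FG hT hS] at h1
  have h2 : ∀ ρ : NT, cf T S ρ * cexp (I * ((ρ : ℂ).im : ℝ) * (v : ℝ)) =
      hh T S v ((ρ : ℂ) - 1 / 2) / deriv riemannZeta ρ := by
    intro ρ
    have h3 : (ρ : ℂ) - 1 / 2 = I * ((ρ : ℂ).im : ℝ) := by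
      apply Complex.ext
      · simp [(hline ρ ρ.2).1]
      · simp
    unfold cf hh
    rw [← h3, Complex.ofReal_zero, mul_zero, Complex.exp_zero, one_mul]
    ring
  rw [tsum_congr h2, h1]
  have hpi : ((2 * Real.pi : ℝ) : ℂ) ≠ 0 := by
    have := Real.pi_pos
    exact_mod_cast (by positivity : (2 * Real.pi : ℝ) ≠ 0)
  unfold GG LL
  obtain ⟨g, hg⟩ : ∃ g : ℝ, g = ∫ x, gS S x * DT T (v - x) := ⟨_, rfl⟩
  rw [← hg]
  have e : ((2 * Real.pi * g : ℝ) : ℂ) = ((2 * Real.pi : ℝ) : ℂ) * (g : ℂ) := by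
    push_cast
    ring
  rw [e, mul_sub, ← mul_assoc, inv_mul_cancel₀ hpi, one_mul]

end Pool.Agent.Y763.SJ
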