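import Pool.Agent.Y763.SJ.P1

/-! One-sided recurrence of the jumps. -/

set_option autoImplicit false
set_option maxHeartbeats 2000000

open Complex Filter Topology Set MeasureTheory

namespace Pool.Agent.Y763.SJ

open Pool.Agent.W120.WM (ZC NT)
open Pool.Agent.H295R2 (Mx)

/-- the bound for the integral on the left, with its decay -/
theorem left_int2 (hQ : S_QQ) : ∃ C : ℝ, 0 < C ∧ ∀ T S v : ℝ, 1 ≤ T → 1 ≤ S →
    ‖LL T S v‖ ≤ C / √T * Real.exp (-v) := by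
  obtain ⟨K, hK, hq⟩ := hQ
  obtain ⟨B, hB, hz⟩ := inv_zeta_left
  have hint : Integrable fun y : ℝ => (1 + ‖y‖) ^ (-(3 / 2 : ℝ)) := integrable_one_add_norm (by
    rw [Module.finrank_self]
    norm_num)
  obtain ⟨J, hJ⟩ : ∃ J : ℝ, J = ∫ y : ℝ, (1 + ‖y‖) ^ (-(3 / 2 : ℝ)) := ⟨_, rfl⟩
  have hJ0 : 0 ≤ J := by
    rw [hJ]
    exact integral_nonneg fun y => by positivity
  refine ⟨B * Real.exp 1 * K * (J + 1), by positivity, fun T S v hT hS => ?_⟩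
  obtain ⟨-, -, -, hq4⟩ := hq T hT
  have hT0 : 0 < √T := Real.sqrt_pos.2 (by linarith)
  obtain ⟨E, hE⟩ : ∃ E : ℝ, E = Real.exp (-v) := ⟨_, rfl⟩
  have hE0 : 0 < E := by rw [hE]; positivity
  unfold LL
  refine (norm_integral_le_of_norm_le (hint.const_mul (B * Real.exp 1 * K / √T * E)) (Eventually.of_forall fun y => ?_)).trans ?_
  · have h1 : ‖hh T S v ⟨-1, y⟩‖ ≤ E * (Real.exp 1 * (K / √T / √(1 + |y|))) := by
      unfold hh
      rw [norm_mul, norm_mul, Complex.norm_exp, Complex.norm_exp]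
      have e1 : ((⟨-1, y⟩ : ℂ) * (v : ℂ)).re = -v := by simp
      have e2 : ((⟨-1, y⟩ : ℂ) ^ 2 / (S : ℂ) ^ 2).re = (1 - y ^ 2) / S ^ 2 := by
        rw [show (S : ℂ) ^ 2 = ((S ^ 2 : ℝ) : ℂ) by push_cast; rfl, Complex.div_ofReal_re, pow_two,
          Complex.mul_re]
        ring
      rw [e1, e2, ← hE]
      have h3 : (1 - y ^ 2) / S ^ 2 ≤ 1 := by
        rw [div_le_one (by positivity)]
        nlinarith [sq_nonneg y]
      gcongr
      exact hq4 y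
    have h2 := hz y
    have hy : 0 < 1 + |y| := by positivity
    have h3 : √(1 + |y|) = (1 + |y|) ^ (1 / 2 : ℝ) := Real.sqrt_eq_rpow _
    have h4 : (1 + ‖y‖) ^ (-(3 / 2 : ℝ)) = (1 + |y|)⁻¹ * ((1 + |y|) ^ (1 / 2 : ℝ))⁻¹ := by
      rw [Real.norm_eq_abs, ← Real.rpow_neg hy.le, ← Real.rpow_neg_one, ← Real.rpow_add hy]
      norm_num
    rw [norm_mul, h4]
    calc ‖(riemannZeta ⟨-1 / 2, y⟩)⁻¹‖ * ‖hh T S v ⟨-1, y⟩‖ ≤
          (B / (1 + |y|)) * (E * (Real.exp 1 * (K / √T / √(1 + |y|)))) :=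
          mul_le_mul h2 h1 (norm_nonneg _) (by positivity)
      _ = B * Real.exp 1 * K / √T * E * ((1 + |y|)⁻¹ * ((1 + |y|) ^ (1 / 2 : ℝ))⁻¹) := by
          rw [h3]
          field_simp
  · rw [integral_const_mul, ← hJ, ← hE]
    have h5 : B * Real.exp 1 * K / √T * E * J = B * Real.exp 1 * K * J / √T * E := by ring
    rw [h5]
    gcongr
    linarith

/-- the main theorem for continuity points, one-sided -/
theorem coreU : ∃ C : ℝ, 0 < C ∧ ∀ T B s : ℝ, 1 ≤ T → (s = 1 ∨ s = -1) → (∀ v, 0 ≤ v → s * DT T v ≤ B) →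
    ∀ v₀ : ℝ, 0 ≤ v₀ → ContinuousAt (DT T) v₀ → ∀ δ : ℝ, 0 < δ →
    ∃ c : ℝ, 0 < c ∧ ∀ᶠ V : ℝ in atTop,
      c * V ≤ (volume ({v : ℝ | s * DT T v₀ - C / √T * Real.exp (-v₀) - δ ≤ s * DT T v} ∩ Icc 0 V)).toReal := by
  obtain ⟨C, hC, hleft⟩ := left_int2 t_QQ
  refine ⟨C, hC, fun T B s hT hs' hB v₀ hv₀ hc δ hδ => ?_⟩
  have hs : |s| = 1 := by rcases hs' with h | h <;> rw [h] <;> simp
  obtain ⟨C1, hC1, hup⟩ := up_bound hT hs hB
  obtain ⟨hline, A, hA⟩ := zeros_of_up hs' hC1 hup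
  have hT0 : 0 < √T := Real.sqrt_pos.2 (by linarith)
  -- choice of `S`
  have h1 := t_APX (DT T) 12 v₀ (DT_meas T) (DT_bd hT) hc
  obtain ⟨S, hS1, hS2⟩ := ((Metric.tendsto_nhds.1 h1 (δ / 4) (by positivity)).and (eventually_ge_atTop (1:ℝ))).exists
  rw [Real.dist_eq] at hS1
  have hS0 : 0 < S := by linarith
  -- almost periods
  obtain ⟨L, hL, hAP⟩ := t_AP NT (cf T S) (fun ρ => (ρ : ℂ).im)
    (formula2 hline hA (v := 0) hT hS0).1 (δ / 4) (by positivity)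
  have hG : ∀ v : ℝ, v₀ ≤ v → ‖(∑' ρ : NT, cf T S ρ * cexp (I * ((ρ : ℂ).im : ℝ) * (v : ℝ))) - (GG T S v : ℂ)‖ ≤
      C / √T * Real.exp (-v₀) / 2 := by
    intro v hv
    rw [(formula2 hline hA hT hS0).2]
    have e : (GG T S v : ℂ) - ((2 * Real.pi : ℝ) : ℂ)⁻¹ * LL T S v - (GG T S v : ℂ) =
        -(((2 * Real.pi : ℝ) : ℂ)⁻¹ * LL T S v) := by ring
    rw [e, norm_neg, norm_mul, norm_inv, Complex.norm_real, Real.norm_eq_abs,
      abs_of_pos (by have := Real.pi_pos; positivity)]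
    have h2 : ‖LL T S v‖ ≤ C / √T * Real.exp (-v₀) := by
      refine (hleft T S v hT hS2).trans ?_
      gcongr
    have h3 : (2 * Real.pi)⁻¹ ≤ 1 / 2 := by
      rw [inv_le_comm₀ (by have := Real.pi_pos; positivity) (by norm_num)]
      have := Real.pi_gt_three
      norm_num
      linarith
    calc (2 * Real.pi)⁻¹ * ‖LL T S v‖ ≤ 1 / 2 * (C / √T * Real.exp (-v₀)) := by gcongr
      _ = _ := by ring
  have habs : ∀ x y : ℝ, |x - y| ≤ δ / 4 → s * y - δ / 4 ≤ s * x := by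
    intro x y hxy
    have h2 : |s * x - s * y| ≤ δ / 4 := by rw [← mul_sub, abs_mul, hs, one_mul]; exact hxy
    linarith [(abs_le.1 h2).1]
  -- truncation
  obtain ⟨l, hl⟩ : ∃ l : ℝ, l = s * DT T v₀ - C / √T * Real.exp (-v₀) - δ := ⟨_, rfl⟩
  obtain ⟨B1, hB1⟩ : ∃ B1 : ℝ, B1 = max |B| (|l| + 1) := ⟨_, rfl⟩
  have hB1a : |B| ≤ B1 := hB1 ▸ le_max_left _ _
  have hB1b : |l| + 1 ≤ B1 := hB1 ▸ le_max_right _ _
  have hB10 : 0 ≤ B1 := (abs_nonneg B).trans hB1a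
  have hmt : Measurable fun v => max (s * DT T v) (-B1) := ((DT_meas T).const_mul s).max measurable_const
  have hbt : ∀ v, |max (s * DT T v) (-B1)| ≤ 12 * Real.exp v := by
    intro v
    have h2 : |s * DT T v| ≤ 12 * Real.exp v := by rw [abs_mul, hs, one_mul]; exact DT_bd hT v
    refine le_trans ?_ h2
    rw [abs_le]
    constructor
    · exact (neg_abs_le _).trans (le_max_left _ _)
    · exact max_le (le_abs_self _) (by linarith [abs_nonneg (s * DT T v)])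
  have hB2 : ∀ v, 0 ≤ v → max (s * DT T v) (-B1) ≤ B1 := fun v hv =>
    max_le ((hB v hv).trans ((le_abs_self B).trans hB1a)) (by linarith)
  have hset : {v : ℝ | l ≤ s * DT T v} = {v : ℝ | l ≤ max (s * DT T v) (-B1)} := by
    ext v
    simp only [Set.mem_ofPred_eq]
    rw [le_max_iff]
    constructor
    · exact fun h => Or.inl h
    · rintro (h | h)
      · exact h
      · exfalso
        have := neg_abs_le l
        linarith
  rw [← hl, hset]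
  refine t_DENS (fun v => max (s * DT T v) (-B1)) 12 B1 l (δ / 2) S (L + v₀)
    hmt hbt (fun v hv => abs_le.2 ⟨le_max_right _ _, hB2 v hv⟩) (by positivity) hS0 (by linarith) (fun a ha => ?_)
  obtain ⟨τ, hτ, hτ2⟩ := hAP a
  have h2 := hτ2 v₀
  have h3 := hG v₀ le_rfl
  have h4 := hG (v₀ + τ) (by linarith [hτ.1])
  refine ⟨v₀ + τ, ⟨by linarith [hτ.1], by linarith [hτ.2]⟩, ?_⟩
  have h5 : |GG T S (v₀ + τ) - GG T S v₀| ≤ C / √T * Real.exp (-v₀) + δ / 4 := by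
    have h6 : ‖((GG T S (v₀ + τ) : ℝ) : ℂ) - ((GG T S v₀ : ℝ) : ℂ)‖ ≤ C / √T * Real.exp (-v₀) + δ / 4 := by
      have e : ((GG T S (v₀ + τ) : ℝ) : ℂ) - ((GG T S v₀ : ℝ) : ℂ) =
          -((∑' ρ : NT, cf T S ρ * cexp (I * ((ρ : ℂ).im : ℝ) * ((v₀ + τ : ℝ) : ℝ))) - ((GG T S (v₀ + τ) : ℝ) : ℂ)) +
          ((∑' ρ : NT, cf T S ρ * cexp (I * ((ρ : ℂ).im : ℝ) * ((v₀ + τ : ℝ) : ℝ))) -
            ∑' ρ : NT, cf T S ρ * cexp (I * ((ρ : ℂ).im : ℝ) * (v₀ : ℝ))) +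
          ((∑' ρ : NT, cf T S ρ * cexp (I * ((ρ : ℂ).im : ℝ) * (v₀ : ℝ))) - ((GG T S v₀ : ℝ) : ℂ)) := by ring
      rw [e]
      refine (norm_add₃_le).trans ?_
      rw [norm_neg]
      have h7 : C / √T * Real.exp (-v₀) + δ / 4 = C / √T * Real.exp (-v₀) / 2 + δ / 4 + C / √T * Real.exp (-v₀) / 2 := by ring
      rw [h7]
      exact add_le_add (add_le_add h4 h2) h3
    rw [← Complex.ofReal_sub, Complex.norm_real, Real.norm_eq_abs] at h6
    exact h6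
  have h8 : |s * GG T S (v₀ + τ) - s * GG T S v₀| ≤ C / √T * Real.exp (-v₀) + δ / 4 := by
    rw [← mul_sub, abs_mul, hs, one_mul]
    exact h5
  have h9 := habs _ _ hS1.le
  have h10 : ∫ x, gS S x * (s * DT T (v₀ + τ - x)) = s * GG T S (v₀ + τ) := by
    unfold GG
    rw [← integral_const_mul]
    refine integral_congr_ae (Eventually.of_forall fun x => ?_)
    simp only
    ring
  have hi1 := (t_LIM (fun v => s * DT T v) 12 B 0 S ((DT_meas T).const_mul s)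
    (fun v => by rw [abs_mul, hs, one_mul]; exact DT_bd hT v) (fun v hv => hB v hv) hS0).1 (v₀ + τ)
  have hi2 := (t_LIM (fun v => max (s * DT T v) (-B1)) 12 B1 0 S hmt hbt hB2 hS0).1 (v₀ + τ)
  have h13 : ∫ x, gS S x * (s * DT T (v₀ + τ - x)) ≤ ∫ x, gS S x * max (s * DT T (v₀ + τ - x)) (-B1) := by
    refine integral_mono hi1 hi2 fun x => ?_
    exact mul_le_mul_of_nonneg_left (le_max_left _ _) (gS_nonneg hS0 x)
  refine le_trans ?_ h13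
  rw [h10]
  have h11 := (abs_le.1 h8).1
  have h12 : s * DT T v₀ - δ / 4 ≤ s * GG T S v₀ := h9
  rw [hl]
  linarith

/-- all points -/
theorem coreU2 : ∃ C : ℝ, 0 < C ∧ ∀ T B s : ℝ, 1 ≤ T → (s = 1 ∨ s = -1) → (∀ v, 0 ≤ v → s * DT T v ≤ B) →
    ∀ v₀ : ℝ, 0 ≤ v₀ → ∀ δ : ℝ, 0 < δ →
    ∃ c : ℝ, 0 < c ∧ ∀ᶠ V : ℝ in atTop,
      c * V ≤ (volume ({v : ℝ | s * DT T v₀ - C / √T * Real.exp (-v₀) - δ ≤ s * DT T v} ∩ Icc 0 V)).toReal := by
  obtain ⟨C, hC, h⟩ := coreU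
  refine ⟨C, hC, fun T B s hT hs' hB v₀ hv₀ δ hδ => ?_⟩
  have hs : |s| = 1 := by rcases hs' with h | h <;> rw [h] <;> simp
  obtain ⟨v₁, h1, h2, h3⟩ := cont_pt hT v₀ (half_pos hδ)
  obtain ⟨c, hc, hev⟩ := h T B s hT hs' hB v₁ (by linarith) h2 (δ / 2) (half_pos hδ)
  refine ⟨c, hc, hev.mono fun V hV => hV.trans ?_⟩
  refine ENNReal.toReal_mono ?_ (measure_mono ?_)
  · refine ne_of_lt (lt_of_le_of_lt (measure_mono inter_subset_right) ?_)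
    rw [Real.volume_Icc]
    exact ENNReal.ofReal_lt_top
  · rintro v ⟨a1, a2⟩
    refine ⟨?_, a2⟩
    have h4 : |s * DT T v₁ - s * DT T v₀| ≤ δ / 2 := by rw [← mul_sub, abs_mul, hs, one_mul]; exact h3
    have h5 := (abs_le.1 h4).1
    have a3 : s * DT T v₁ - C / √T * Real.exp (-v₁) - δ / 2 ≤ s * DT T v := a1
    have hT0 : 0 < √T := Real.sqrt_pos.2 (by linarith)
    have h6 : C / √T * Real.exp (-v₁) ≤ C / √T * Real.exp (-v₀) := by gcongr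
    show s * DT T v₀ - C / √T * Real.exp (-v₀) - δ ≤ s * DT T v
    linarith

/-- the unconditional form -/
theorem coreU3 : ∃ C : ℝ, 0 < C ∧ (∀ T B s : ℝ, 1 ≤ T → (s = 1 ∨ s = -1) → (∀ v, 0 ≤ v → s * DT T v ≤ B) →
    ∀ v₀ : ℝ, 0 ≤ v₀ → ∀ δ : ℝ, 0 < δ →
    ∃ c : ℝ, 0 < c ∧ ∀ᶠ V : ℝ in atTop,
      c * V ≤ (volume ({v : ℝ | s * DT T v₀ - C / √T * Real.exp (-v₀) - δ ≤ s * DT T v} ∩ Icc 0 V)).toReal) ∧
    ∀ T s : ℝ, 1 ≤ T → (s = 1 ∨ s = -1) → ∀ v₀ : ℝ, 0 ≤ v₀ → ∀ δ : ℝ, 0 < δ →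
      ∃ᶠ v : ℝ in atTop, s * DT T v₀ - C / √T * Real.exp (-v₀) - δ ≤ s * DT T v := by
  obtain ⟨C, hC, h⟩ := coreU2
  refine ⟨C, hC, h, fun T s hT hs' v₀ hv₀ δ hδ => ?_⟩
  have hs : |s| = 1 := by rcases hs' with h | h <;> rw [h] <;> simp
  by_contra hcon
  rw [not_frequently] at hcon
  obtain ⟨v₁, hv₁⟩ := eventually_atTop.1 hcon
  obtain ⟨R, hR⟩ : ∃ R : ℝ, R = s * DT T v₀ - C / √T * Real.exp (-v₀) - δ := ⟨_, rfl⟩
  have hlt : ∀ v, v₁ ≤ v → s * DT T v < R := fun v hv => by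
    have := hv₁ v hv
    rw [← hR] at this
    exact not_le.1 this
  -- boundedness
  have hB : ∀ v, 0 ≤ v → s * DT T v ≤ max R (12 * Real.exp v₁) := by
    intro v _
    rcases le_total v₁ v with h1 | h1
    · exact (hlt v h1).le.trans (le_max_left _ _)
    · refine le_trans ?_ (le_max_right _ _)
      have h2 : s * DT T v ≤ |DT T v| := by
        calc s * DT T v ≤ |s * DT T v| := le_abs_self _
          _ = |DT T v| := by rw [abs_mul, hs, one_mul]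
      have h3 := DT_bd hT v
      have := Real.exp_le_exp.2 h1
      linarith
  obtain ⟨c, hc, hev⟩ := h T _ s hT hs' hB v₀ hv₀ δ hδ
  rw [← hR] at hev
  obtain ⟨V, hV1, hV2, hV3⟩ := (hev.and ((eventually_gt_atTop (|v₁| / c)).and (eventually_ge_atTop 0))).exists
  have h2 : ({v : ℝ | R ≤ s * DT T v} ∩ Icc 0 V) ⊆ Icc 0 |v₁| := by
    rintro v ⟨a1, a2⟩
    refine ⟨a2.1, ?_⟩
    by_contra hcon2
    push Not at hcon2
    have h3 := hlt v (by linarith [le_abs_self v₁])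
    have a3 : R ≤ s * DT T v := a1
    linarith
  have h3 : (volume ({v : ℝ | R ≤ s * DT T v} ∩ Icc 0 V)).toReal ≤ |v₁| := by
    refine (ENNReal.toReal_mono ?_ (measure_mono h2)).trans ?_
    · rw [Real.volume_Icc]
      exact ENNReal.ofReal_ne_top
    · rw [Real.volume_Icc, sub_zero, ENNReal.toReal_ofReal (abs_nonneg _)]
  rw [div_lt_iff₀ hc] at hV2
  linarith

lemma Del_two {T : ℝ} (hT : 1 ≤ T) : Del T 2 ≤ -(1 / √2) := by
  obtain ⟨h1, h2, h3, h4⟩ := ab hT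
  have hT0 : 0 < T := by linarith
  have h5 : (2:ℝ) / (2 * T) = 1 / T := by field_simp
  have h6 : 0 < 1 / T := by positivity
  have h7 : 1 / T ≤ 1 := by rw [div_le_one hT0]; exact hT
  have e2 : ⌊(2:ℝ) - 2 / (2 * T)⌋₊ = 1 := by
    rw [h5, Nat.floor_eq_iff (by linarith)]
    constructor
    · push_cast; linarith
    · push_cast; linarith
  have hm1 : ∑ n ∈ Finset.Icc 1 1, ((ArithmeticFunction.moebius n : ℤ) : ℝ) = 1 := by simp
  have hm2 : ∑ n ∈ Finset.Icc 1 2, ((ArithmeticFunction.moebius n : ℤ) : ℝ) = 0 := by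
    rw [Finset.sum_Icc_succ_top (by norm_num), hm1, ArithmeticFunction.moebius_apply_prime Nat.prime_two]
    norm_num
  have hm3 : ∑ n ∈ Finset.Icc 1 3, ((ArithmeticFunction.moebius n : ℤ) : ℝ) = -1 := by
    rw [Finset.sum_Icc_succ_top (by norm_num), hm2, ArithmeticFunction.moebius_apply_prime Nat.prime_three]
    norm_num
  have h8 : M (2 + 2 / (2 * T)) ≤ 0 := by
    unfold M
    rcases eq_or_lt_of_le hT with h | h
    · have e1 : ⌊(2:ℝ) + 2 / (2 * T)⌋₊ = 3 := by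
        rw [← h, Nat.floor_eq_iff (by norm_num)]
        norm_num
      rw [e1, hm3]
      norm_num
    · have h9 : 1 / T < 1 := by rw [div_lt_one hT0]; exact h
      have e1 : ⌊(2:ℝ) + 2 / (2 * T)⌋₊ = 2 := by
        rw [h5, Nat.floor_eq_iff (by linarith)]
        constructor
        · push_cast; linarith
        · push_cast; linarith
      rw [e1, hm2]
  have h9 : M (2 - 2 / (2 * T)) = 1 := by
    unfold M
    rw [e2, hm1]
  unfold Del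
  rw [h9, ← neg_div]
  gcongr
  linarith

/-- **the theorem**, with signs -/
theorem finalU : ∃ C : ℝ, 0 < C ∧ ∀ T : ℝ, 1 ≤ T →
    (∃ᶠ x : ℝ in atTop, 1 - C / √T ≤ Del T x) ∧
    (∃ᶠ x : ℝ in atTop, Del T x ≤ -(1 / √2) + C / √T) ∧
    (∀ x₀ : ℝ, 1 ≤ x₀ → ∀ δ : ℝ, 0 < δ → (∃ᶠ x : ℝ in atTop, Del T x₀ - C / (x₀ * √T) - δ ≤ Del T x) ∧
      ∃ᶠ x : ℝ in atTop, Del T x ≤ Del T x₀ + C / (x₀ * √T) + δ) ∧
    ((∃ B : ℝ, ∀ x : ℝ, 1 ≤ x → Del T x ≤ B) → ∀ x₀ : ℝ, 1 ≤ x₀ → ∀ δ : ℝ, 0 < δ →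
      ∃ c : ℝ, 0 < c ∧ ∀ᶠ V : ℝ in atTop, c * V ≤
        (volume {v : ℝ | 0 ≤ v ∧ v ≤ V ∧ Del T x₀ - C / (x₀ * √T) - δ ≤ Del T (Real.exp v)}).toReal) ∧
    ((∃ B : ℝ, ∀ x : ℝ, 1 ≤ x → B ≤ Del T x) → ∀ x₀ : ℝ, 1 ≤ x₀ → ∀ δ : ℝ, 0 < δ →
      ∃ c : ℝ, 0 < c ∧ ∀ᶠ V : ℝ in atTop, c * V ≤
        (volume {v : ℝ | 0 ≤ v ∧ v ≤ V ∧ Del T (Real.exp v) ≤ Del T x₀ + C / (x₀ * √T) + δ}).toReal) := by
  obtain ⟨C, hC, h1, h2⟩ := coreU3
  refine ⟨C + 1, by linarith, fun T hT => ?_⟩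
  have hT0 : 0 < √T := Real.sqrt_pos.2 (by linarith)
  have hCT : C / √T ≤ (C + 1) / √T := by gcongr; linarith
  have hx : ∀ x : ℝ, 1 ≤ x → Del T x = DT T (Real.log x) := by
    intro x hx
    rw [← Del_exp hT, Real.exp_log (by linarith)]
  have hex : ∀ x : ℝ, 1 ≤ x → C / √T * Real.exp (-Real.log x) = C / (x * √T) := by
    intro x hx
    rw [Real.exp_neg, Real.exp_log (by linarith)]
    field_simp
  have hCx : ∀ x : ℝ, 1 ≤ x → C / (x * √T) ≤ (C + 1) / (x * √T) := by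
    intro x hx
    have : 0 < x := by linarith
    gcongr
    linarith
  have hfreq : ∀ R s : ℝ, (∃ᶠ v : ℝ in atTop, R ≤ s * DT T v) → ∃ᶠ x : ℝ in atTop, R ≤ s * Del T x := by
    intro R s hR
    refine Real.tendsto_exp_atTop.frequently (hR.mono fun v hv => ?_)
    rw [Del_exp hT]
    exact hv
  have hsec : ∀ s : ℝ, (s = 1 ∨ s = -1) → ∀ x₀ : ℝ, 1 ≤ x₀ → ∀ δ : ℝ, 0 < δ →
      ∃ᶠ x : ℝ in atTop, s * Del T x₀ - C / (x₀ * √T) - δ ≤ s * Del T x := by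
    intro s hs x₀ hx₀ δ hδ
    refine hfreq _ s ?_
    rw [hx x₀ hx₀, ← hex x₀ hx₀]
    exact h2 T s hT hs (Real.log x₀) (Real.log_nonneg hx₀) δ hδ
  have key : ∀ s : ℝ, (s = 1 ∨ s = -1) → (∃ B : ℝ, ∀ x : ℝ, 1 ≤ x → s * Del T x ≤ B) → ∀ x₀ : ℝ, 1 ≤ x₀ →
      ∀ δ : ℝ, 0 < δ → ∃ c : ℝ, 0 < c ∧ ∀ᶠ V : ℝ in atTop, c * V ≤
        (volume {v : ℝ | 0 ≤ v ∧ v ≤ V ∧ s * Del T x₀ - (C + 1) / (x₀ * √T) - δ ≤ s * Del T (Real.exp v)}).toReal := by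
    rintro s hs ⟨B, hB⟩ x₀ hx₀ δ hδ
    have hB' : ∀ v, 0 ≤ v → s * DT T v ≤ B := by
      intro v hv
      rw [← Del_exp hT]
      exact hB _ (Real.one_le_exp hv)
    obtain ⟨c, hc, hev⟩ := h1 T B s hT hs hB' (Real.log x₀) (Real.log_nonneg hx₀) δ hδ
    refine ⟨c, hc, hev.mono fun V hV => hV.trans ?_⟩
    refine ENNReal.toReal_mono ?_ (measure_mono ?_)
    · refine ne_of_lt (lt_of_le_of_lt (measure_mono (t := Icc 0 V) fun v hv => ⟨hv.1, hv.2.1⟩) ?_)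
      rw [Real.volume_Icc]
      exact ENNReal.ofReal_lt_top
    · rintro v ⟨a1, a2⟩
      refine ⟨a2.1, a2.2, ?_⟩
      have a3 : s * DT T (Real.log x₀) - C / √T * Real.exp (-Real.log x₀) - δ ≤ s * DT T v := a1
      rw [hex x₀ hx₀] at a3
      have a4 := hCx x₀ hx₀
      rw [hx x₀ hx₀, Del_exp hT]
      linarith
  refine ⟨?_, ?_, fun x₀ hx₀ δ hδ => ⟨?_, ?_⟩, fun hB x₀ hx₀ δ hδ => ?_, ?_⟩
  · have h3 := hsec 1 (Or.inl rfl) 1 le_rfl (1 / √T) (by positivity)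
    rw [Del_one hT] at h3
    simp only [one_mul] at h3
    refine h3.mono fun x hx => ?_
    have e : (C + 1) / √T = C / √T + 1 / √T := by ring
    rw [e]
    linarith
  · have h3 := hsec (-1) (Or.inr rfl) 2 one_le_two (1 / √T) (by positivity)
    have h4 := Del_two hT
    have h5 : C / (2 * √T) ≤ C / √T := by
      gcongr
      linarith
    refine h3.mono fun x hx => ?_
    have e : (C + 1) / √T = C / √T + 1 / √T := by ring
    rw [e]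
    linarith
  · exact (hsec 1 (Or.inl rfl) x₀ hx₀ δ hδ).mono fun x hx => by linarith [hCx x₀ hx₀]
  · exact (hsec (-1) (Or.inr rfl) x₀ hx₀ δ hδ).mono fun x hx => by linarith [hCx x₀ hx₀]
  · obtain ⟨c, hc, hev⟩ := key 1 (Or.inl rfl) (by simpa only [one_mul] using hB) x₀ hx₀ δ hδ
    refine ⟨c, hc, ?_⟩
    simpa only [one_mul] using hev
  · rintro ⟨B, hB⟩ x₀ hx₀ δ hδ
    obtain ⟨c, hc, hev⟩ := key (-1) (Or.inr rfl) ⟨-B, fun x hx => by linarith [hB x hx]⟩ x₀ hx₀ δ hδ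
    refine ⟨c, hc, hev.mono fun V hV => hV.trans (le_of_eq ?_)⟩
    congr 2
    ext v
    simp only [Set.mem_ofPred_eq]
    constructor
    · rintro ⟨a1, a2, a3⟩
      exact ⟨a1, a2, by linarith⟩
    · rintro ⟨a1, a2, a3⟩
      exact ⟨a1, a2, by linarith⟩

end Pool.Agent.Y763.SJ
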