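import Mathlib

/-! Project SJ: values of `(M(x + x/(2T)) - M(x - x/(2T))) / √x` recur. Statements of the jobs. -/

set_option autoImplicit false

open Complex Filter Topology Set MeasureTheory

namespace Pool.Agent.Y763.SJ

/-- the Gaussian density with standard deviation `√2 / S` -/
noncomputable def gS (S x : ℝ) : ℝ := S / (2 * √Real.pi) * Real.exp (-(S * x / 2) ^ 2)

/-- (LIM) upper limit of the Gaussian means -/
def S_LIM : Prop := ∀ (D : ℝ → ℝ) (K A v₁ S : ℝ), Measurable D → (∀ v, |D v| ≤ K * Real.exp v) →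
  (∀ v, v₁ ≤ v → D v ≤ A) → 0 < S →
  (∀ v, Integrable fun x => gS S x * D (v - x)) ∧
    ∀ η : ℝ, 0 < η → ∀ᶠ v : ℝ in atTop, ∫ x, gS S x * D (v - x) ≤ A + η

/-- (APX) approximate identity -/
def S_APX : Prop := ∀ (D : ℝ → ℝ) (K v₀ : ℝ), Measurable D → (∀ v, |D v| ≤ K * Real.exp v) →
  ContinuousAt D v₀ → Tendsto (fun S : ℝ => ∫ x, gS S x * D (v₀ - x)) atTop (𝓝 (D v₀))

/-- (AP) almost periods of absolutely convergent series are relatively dense -/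
def S_AP : Prop := ∀ (ι : Type) (c : ι → ℂ) (g : ι → ℝ), Summable (fun i => ‖c i‖) → ∀ ε : ℝ, 0 < ε →
  ∃ L : ℝ, 0 < L ∧ ∀ a : ℝ, ∃ τ ∈ Icc a (a + L), ∀ v : ℝ,
    ‖(∑' i, c i * cexp (I * g i * (v + τ : ℝ))) - ∑' i, c i * cexp (I * g i * (v : ℝ))‖ ≤ ε

/-- (DENS) relatively dense large Gaussian means give positive lower density -/
def S_DENS : Prop := ∀ (D : ℝ → ℝ) (K B l δ S L : ℝ), Measurable D → (∀ v, |D v| ≤ K * Real.exp v) →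
  (∀ v, 0 ≤ v → |D v| ≤ B) → 0 < δ → 0 < S → 0 < L →
  (∀ a : ℝ, 0 ≤ a → ∃ v ∈ Icc a (a + L), l + δ ≤ ∫ x, gS S x * D (v - x)) →
  ∃ c : ℝ, 0 < c ∧ ∀ᶠ V : ℝ in atTop, c * V ≤ (volume ({v : ℝ | l ≤ D v} ∩ Icc 0 V)).toReal

/-- the logarithms of the end points -/
noncomputable def la (T : ℝ) : ℝ := Real.log (1 - 1 / (2 * T))
/-- the logarithms of the end points -/
noncomputable def lb (T : ℝ) : ℝ := Real.log (1 + 1 / (2 * T))

/-- `(b^s - a^s) / s` with `s = z + 1/2`, an entire function -/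
noncomputable def QQ (T : ℝ) (z : ℂ) : ℂ :=
  dslope (fun w : ℂ => cexp (w * (lb T : ℝ)) - cexp (w * (la T : ℝ))) 0 (z + 1 / 2)

/-- the test function -/
noncomputable def hh (T S v : ℝ) (z : ℂ) : ℂ := cexp (z * v) * (cexp (z ^ 2 / (S : ℂ) ^ 2) * QQ T z)

/-- (QQ) properties of `QQ` -/
def S_QQ : Prop := ∃ K : ℝ, 0 < K ∧ ∀ T : ℝ, 1 ≤ T → Differentiable ℂ (QQ T) ∧
  (∀ z : ℂ, QQ T z = ∫ r in (la T)..(lb T), cexp ((z + 1 / 2) * r)) ∧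
  (∀ z : ℂ, |z.re| ≤ 1 → ‖QQ T z‖ ≤ K) ∧
  ∀ y : ℝ, ‖QQ T ⟨-1, y⟩‖ ≤ K / √T / √(1 + |y|)

/-- (FG) Fourier transform of the test function on the line -/
def S_FG : Prop := S_QQ → ∀ T S v L : ℝ, 1 ≤ T → 0 < S →
  ∫ y : ℝ, cexp (-(L : ℂ) * (1 / 2 + ⟨0, y⟩)) * hh T S v ⟨0, y⟩ =
    ((2 * Real.pi * Real.exp (-(L / 2)) * ∫ r in (la T)..(lb T), Real.exp (r / 2) * gS S (v + r - L) : ℝ) : ℂ)

end Pool.Agent.Y763.SJ
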