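import Pool.Agent.Y763.SJ.Stm
import Pool.Agent.Y763.HB.EX3
import Pool.Agent.Y763.GC.B

/-! The smoothed differences as sums over the zeros. -/

set_option autoImplicit false
set_option maxHeartbeats 2000000

open Complex Filter Topology Set MeasureTheory

namespace Pool.Agent.Y763.SJ

open Pool.Agent.Y23 (Dec JJ JJ_eq JJ_norm dec_int dec_cont dec_line)
open Pool.Agent.W120.WM (ZC NT)
open Pool.Agent.Y763.HB (muc muc_le muc_zero ex ex_summ)
open Pool.Agent.H295R2 (Mx)
open Pool.Agent.Y763.GC (DD DD_eq DD_LL DD_bd Mx_eq)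

/-- the normalised difference as a function of `v = log x` -/
noncomputable def DT (T v : ℝ) : ℝ := DD (1 - 1 / (2 * T)) (1 + 1 / (2 * T)) v

lemma DT_meas (T : ℝ) : Measurable (DT T) := (DD_LL _ _).meas

lemma DT_bd {T : ℝ} (hT : 1 ≤ T) (v : ℝ) : |DT T v| ≤ 12 * Real.exp v :=
  DD_bd hT (left_mem_Icc.2 one_le_two) le_rfl

lemma ab {T : ℝ} (hT : 1 ≤ T) : (1:ℝ) / 2 ≤ 1 - 1 / (2 * T) ∧ (1 - 1 / (2 * T) : ℝ) < 1 ∧ (1:ℝ) < 1 + 1 / (2 * T) ∧
    (1 + 1 / (2 * T) : ℝ) ≤ 3 / 2 := by
  obtain ⟨h1, h2⟩ := Pool.Agent.Y763.GC.inv_T hT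
  refine ⟨by linarith, by linarith, by linarith, by linarith⟩

lemma la_lt_lb {T : ℝ} (hT : 1 ≤ T) : la T < lb T := by
  obtain ⟨h1, h2, h3, h4⟩ := ab hT
  exact Real.log_lt_log (by linarith) (by linarith)

lemma DT_eq {T : ℝ} (hT : 1 ≤ T) (v : ℝ) :
    DT T v = (Mx (Real.exp (v + lb T)) - Mx (Real.exp (v + la T))) * Real.exp (-(v / 2)) := by
  obtain ⟨h1, h2, h3, h4⟩ := ab hT
  unfold DT
  rw [DD_eq (by linarith) (by linarith)]
  unfold la lb
  rw [Real.exp_add, Real.exp_add, Real.exp_log (by linarith), Real.exp_log (by linarith),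
    mul_comm (Real.exp v), mul_comm (Real.exp v)]

lemma hh_dec {K T S v : ℝ} (hK : 0 < K) (hS : 0 < S) (hd : Differentiable ℂ (QQ T))
    (hb : ∀ z : ℂ, |z.re| ≤ 1 → ‖QQ T z‖ ≤ K) :
    Dec (hh T S v) (Real.exp |v| * (Real.exp (1 / S ^ 2) * K)) (1 / S ^ 2) := by
  refine ⟨?_, fun w hw => ?_⟩
  · unfold hh
    exact Differentiable.mul (by fun_prop) (Differentiable.mul (by fun_prop) hd)
  · unfold hh
    rw [norm_mul, norm_mul, Complex.norm_exp, Complex.norm_exp]
    have e1 : (w * (v : ℂ)).re = w.re * v := by simp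
    have e2 : (w ^ 2 / (S : ℂ) ^ 2).re = (w.re ^ 2 - w.im ^ 2) / S ^ 2 := by
      rw [show (S : ℂ) ^ 2 = ((S ^ 2 : ℝ) : ℂ) by push_cast; rfl, Complex.div_ofReal_re, pow_two,
        Complex.mul_re]
      ring
    rw [e1, e2]
    have h1 : w.re * v ≤ |v| := by
      calc w.re * v ≤ |w.re * v| := le_abs_self _
        _ = |w.re| * |v| := abs_mul _ _
        _ ≤ 1 * |v| := by gcongr
        _ = |v| := one_mul _
    have h2 : (w.re ^ 2 - w.im ^ 2) / S ^ 2 ≤ 1 / S ^ 2 + -(1 / S ^ 2) * w.im ^ 2 := by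
      have h3 : w.re ^ 2 ≤ 1 := by
        rw [← sq_abs]
        have := abs_nonneg w.re
        nlinarith
      have h4 : (w.re ^ 2 - w.im ^ 2) / S ^ 2 = 1 / S ^ 2 * w.re ^ 2 + -(1 / S ^ 2) * w.im ^ 2 := by ring
      rw [h4]
      have h5 : 0 ≤ 1 / S ^ 2 := by positivity
      nlinarith
    calc Real.exp (w.re * v) * (Real.exp ((w.re ^ 2 - w.im ^ 2) / S ^ 2) * ‖QQ T w‖) ≤
          Real.exp |v| * (Real.exp (1 / S ^ 2 + -(1 / S ^ 2) * w.im ^ 2) * K) := by
          gcongr
          exact hb w hw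
      _ = _ := by
          rw [Real.exp_add]
          ring

/-- the terms -/
noncomputable def fn (T S v : ℝ) (n : ℕ) (x : ℝ) : ℝ :=
  ((ArithmeticFunction.moebius n : ℤ) : ℝ) *
    (if la T < x + Real.log n - v ∧ x + Real.log n - v ≤ lb T then gS S x * Real.exp (-((v - x) / 2)) else 0)

lemma gS_cont (S : ℝ) : Continuous (gS S) := by
  unfold gS
  fun_prop

lemma gS_nonneg {S : ℝ} (hS : 0 < S) (x : ℝ) : 0 ≤ gS S x := by
  unfold gS
  positivity

lemma fn_zero (T S v : ℝ) : fn T S v 0 = 0 := by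
  funext x
  simp [fn]

lemma int_core {T S v l : ℝ} (hT : 1 ≤ T) :
    ∫ x, (if la T < x + l - v ∧ x + l - v ≤ lb T then gS S x * Real.exp (-((v - x) / 2)) else 0) =
      Real.exp (-(l / 2)) * ∫ r in (la T)..(lb T), Real.exp (r / 2) * gS S (v + r - l) := by
  have h1 : (fun x : ℝ => if la T < x + l - v ∧ x + l - v ≤ lb T then gS S x * Real.exp (-((v - x) / 2)) else 0) =
      fun x => (fun r : ℝ => (Ioc (la T) (lb T)).indicator
        (fun r => Real.exp (-(l / 2)) * (Real.exp (r / 2) * gS S (v + r - l))) r) (x + (l - v)) := by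
    funext x
    have e0 : x + (l - v) = x + l - v := by ring
    simp only [e0]
    by_cases h : la T < x + l - v ∧ x + l - v ≤ lb T
    · rw [if_pos h, Set.indicator_of_mem (show x + l - v ∈ Ioc (la T) (lb T) from h)]
      have e1 : v + (x + l - v) - l = x := by ring
      rw [e1, ← mul_assoc, ← Real.exp_add, mul_comm]
      congr 2
      ring
    · rw [if_neg h, Set.indicator_of_notMem (show x + l - v ∉ Ioc (la T) (lb T) from h)]
  rw [h1, integral_add_right_eq_self (fun r : ℝ => (Ioc (la T) (lb T)).indicator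
        (fun r => Real.exp (-(l / 2)) * (Real.exp (r / 2) * gS S (v + r - l))) r),
    integral_indicator measurableSet_Ioc, ← intervalIntegral.integral_of_le (la_lt_lb hT).le,
    intervalIntegral.integral_const_mul]

lemma core_int {T S v l : ℝ} (hT : 1 ≤ T) :
    Integrable fun x : ℝ => (if la T < x + l - v ∧ x + l - v ≤ lb T then gS S x * Real.exp (-((v - x) / 2)) else 0) := by
  have h1 : (fun x : ℝ => if la T < x + l - v ∧ x + l - v ≤ lb T then gS S x * Real.exp (-((v - x) / 2)) else 0) =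
      (Ioc (la T + v - l) (lb T + v - l)).indicator fun x => gS S x * Real.exp (-((v - x) / 2)) := by
    funext x
    by_cases h : la T < x + l - v ∧ x + l - v ≤ lb T
    · rw [if_pos h, Set.indicator_of_mem]
      constructor <;> linarith [h.1, h.2]
    · rw [if_neg h, Set.indicator_of_notMem]
      intro h2
      exact h ⟨by linarith [h2.1], by linarith [h2.2]⟩
  rw [h1, integrable_indicator_iff measurableSet_Ioc]
  have hc : Continuous fun x : ℝ => gS S x * Real.exp (-((v - x) / 2)) := (gS_cont S).mul (by fun_prop)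
  exact (hc.integrableOn_Icc).mono_set Ioc_subset_Icc_self

lemma sum_fn {T S v : ℝ} (hT : 1 ≤ T) (x : ℝ) : ∑' n : ℕ, fn T S v n x = gS S x * DT T (v - x) := by
  obtain ⟨w, hw⟩ : ∃ w : ℝ, w = v - x := ⟨_, rfl⟩
  have hlab := la_lt_lb hT
  have hex : Real.exp (w + la T) < Real.exp (w + lb T) := Real.exp_lt_exp.2 (by linarith)
  have hterm : ∀ n : ℕ, fn T S v n x = if n ∈ Finset.Ioc ⌊Real.exp (w + la T)⌋₊ ⌊Real.exp (w + lb T)⌋₊ then
      ((ArithmeticFunction.moebius n : ℤ) : ℝ) * (gS S x * Real.exp (-(w / 2))) else 0 := by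
    intro n
    rcases Nat.eq_zero_or_pos n with h | h
    · subst h
      rw [fn_zero]
      simp
    · have hn : (0:ℝ) < n := by exact_mod_cast h
      have hiff : (la T < x + Real.log n - v ∧ x + Real.log n - v ≤ lb T) ↔
          n ∈ Finset.Ioc ⌊Real.exp (w + la T)⌋₊ ⌊Real.exp (w + lb T)⌋₊ := by
        rw [Finset.mem_Ioc, Nat.floor_lt (Real.exp_pos _).le, Nat.le_floor_iff (Real.exp_pos _).le,
          ← Real.lt_log_iff_exp_lt hn, ← Real.log_le_iff_le_exp hn, hw]
        constructor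
        · rintro ⟨a1, a2⟩
          exact ⟨by linarith, by linarith⟩
        · rintro ⟨a1, a2⟩
          exact ⟨by linarith, by linarith⟩
      unfold fn
      rw [← hw]
      by_cases hc : la T < x + Real.log n - v ∧ x + Real.log n - v ≤ lb T
      · rw [if_pos hc, if_pos (hiff.1 hc)]
      · rw [if_neg hc, if_neg (fun h' => hc (hiff.2 h')), mul_zero]
  rw [tsum_congr hterm, tsum_eq_sum (s := Finset.Ioc ⌊Real.exp (w + la T)⌋₊ ⌊Real.exp (w + lb T)⌋₊)
    (fun n hn => if_neg hn)]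
  rw [Finset.sum_congr rfl (fun n hn => if_pos hn), ← Finset.sum_mul, ← hw, DT_eq hT]
  have hle : ⌊Real.exp (w + la T)⌋₊ ≤ ⌊Real.exp (w + lb T)⌋₊ := Nat.floor_le_floor hex.le
  have hM : Mx (Real.exp (w + lb T)) - Mx (Real.exp (w + la T)) =
      ∑ n ∈ Finset.Ioc ⌊Real.exp (w + la T)⌋₊ ⌊Real.exp (w + lb T)⌋₊, ((ArithmeticFunction.moebius n : ℤ) : ℝ) := by
    rw [Mx_eq, Mx_eq, sub_eq_iff_eq_add]
    have h1 := Finset.sum_Ioc_consecutive (fun n : ℕ => ((ArithmeticFunction.moebius n : ℤ) : ℝ)) (Nat.zero_le _) hle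
    have h2 : ∀ m : ℕ, Finset.Icc 1 m = Finset.Ioc 0 m := fun m => by
      ext k
      simp only [Finset.mem_Icc, Finset.mem_Ioc]
      omega
    rw [h2, h2, ← h1]
    ring
  rw [← hM]
  ring

/-- the smoothed difference as a series -/
theorem series (hQ : S_QQ) (hF : S_FG) {T S v : ℝ} (hT : 1 ≤ T) (hS : 0 < S) :
    ∑' n : ℕ, muc n * JJ (hh T S v) (Real.log n) = ((2 * Real.pi * ∫ x, gS S x * DT T (v - x) : ℝ) : ℂ) := by
  obtain ⟨K, hK, hq⟩ := hQ
  obtain ⟨hd, hrep, hb, -⟩ := hq T hT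
  have hdec := hh_dec (v := v) hK hS hd hb
  obtain ⟨M, hM⟩ : ∃ M : ℝ, M = Real.exp |v| * (Real.exp (1 / S ^ 2) * K) := ⟨_, rfl⟩
  have hM0 : 0 ≤ M := by rw [hM]; positivity
  rw [← hM] at hdec
  have hδ : 0 < 1 / S ^ 2 := by positivity
  have hJ : ∀ n : ℕ, JJ (hh T S v) (Real.log n) = ((2 * Real.pi * Real.exp (-(Real.log n / 2)) *
      ∫ r in (la T)..(lb T), Real.exp (r / 2) * gS S (v + r - Real.log n) : ℝ) : ℂ) :=
    fun n => hF ⟨K, hK, hq⟩ T S v (Real.log n) hT hS
  have hpi := Real.pi_pos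
  -- the integrals of the terms
  have hint : ∀ n : ℕ, Integrable (fn T S v n) := fun n => (core_int hT).const_mul _
  have hval : ∀ n : ℕ, ∫ x, fn T S v n x = ((ArithmeticFunction.moebius n : ℤ) : ℝ) *
      (Real.exp (-(Real.log n / 2)) * ∫ r in (la T)..(lb T), Real.exp (r / 2) * gS S (v + r - Real.log n)) := by
    intro n
    unfold fn
    rw [integral_const_mul, int_core hT]
  have hIn : ∀ n : ℕ, 0 ≤ ∫ r in (la T)..(lb T), Real.exp (r / 2) * gS S (v + r - Real.log n) := fun n =>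
    intervalIntegral.integral_nonneg (la_lt_lb hT).le fun r _ => mul_nonneg (Real.exp_pos _).le (gS_nonneg hS _)
  have habs : ∀ n : ℕ, ∫ x, ‖fn T S v n x‖ = |((ArithmeticFunction.moebius n : ℤ) : ℝ)| *
      (Real.exp (-(Real.log n / 2)) * ∫ r in (la T)..(lb T), Real.exp (r / 2) * gS S (v + r - Real.log n)) := by
    intro n
    rw [← int_core hT, ← integral_const_mul]
    refine integral_congr_ae (Eventually.of_forall fun x => ?_)
    simp only [fn, Real.norm_eq_abs]
    rw [abs_mul]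
    congr 1
    refine abs_of_nonneg ?_
    split_ifs
    · exact mul_nonneg (gS_nonneg hS _) (Real.exp_pos _).le
    · exact le_rfl
  have hsum : Summable fun n : ℕ => ∫ x, ‖fn T S v n x‖ := by
    refine Summable.of_nonneg_of_le (fun n => integral_nonneg fun x => norm_nonneg _) (fun n => ?_)
      (Pool.Agent.Y763.HB.sum_npow.mul_right ((∫ y : ℝ, ‖hh T S v ⟨1, y⟩‖)))
    rcases Nat.eq_zero_or_pos n with h | h
    · subst h
      rw [fn_zero]
      simp only [Pi.zero_apply, norm_zero, integral_zero]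
      have : 0 ≤ ∫ y : ℝ, ‖hh T S v ⟨1, y⟩‖ := integral_nonneg fun y => norm_nonneg _
      positivity
    · have hn : (0:ℝ) < n := by exact_mod_cast h
      have h1 := JJ_norm hδ hM0 hdec (Real.log_natCast_nonneg n)
      rw [hJ n, Complex.norm_real, Real.norm_eq_abs, abs_of_nonneg (by
        have := hIn n
        positivity)] at h1
      have h2 : Real.exp (-(3 / 2 * Real.log n)) = (n : ℝ) ^ (-(3 / 2 : ℝ)) := by
        rw [Real.rpow_def_of_pos hn]
        congr 1
        ring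
      rw [h2] at h1
      rw [habs n]
      have h3 : |((ArithmeticFunction.moebius n : ℤ) : ℝ)| ≤ 1 := by
        have := ArithmeticFunction.abs_moebius_le_one (n := n)
        exact_mod_cast this
      have h4 : 0 ≤ Real.exp (-(Real.log n / 2)) * ∫ r in (la T)..(lb T), Real.exp (r / 2) * gS S (v + r - Real.log n) :=
        mul_nonneg (Real.exp_pos _).le (hIn n)
      calc |((ArithmeticFunction.moebius n : ℤ) : ℝ)| *
          (Real.exp (-(Real.log n / 2)) * ∫ r in (la T)..(lb T), Real.exp (r / 2) * gS S (v + r - Real.log n)) ≤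
          1 * (Real.exp (-(Real.log n / 2)) * ∫ r in (la T)..(lb T), Real.exp (r / 2) * gS S (v + r - Real.log n)) := by
            gcongr
        _ ≤ 2 * Real.pi * Real.exp (-(Real.log n / 2)) *
            ∫ r in (la T)..(lb T), Real.exp (r / 2) * gS S (v + r - Real.log n) := by
            have h5 : 1 ≤ 2 * Real.pi := by nlinarith [Real.pi_gt_three]
            rw [mul_assoc (2 * Real.pi)]
            exact mul_le_mul_of_nonneg_right h5 h4
        _ ≤ _ := h1
  have key := hasSum_integral_of_summable_integral_norm hint hsum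
  have e1 : (fun x => ∑' n : ℕ, fn T S v n x) = fun x => gS S x * DT T (v - x) := funext fun x => sum_fn hT x
  rw [e1] at key
  have e2 : ∀ n : ℕ, muc n * JJ (hh T S v) (Real.log n) = ((2 * Real.pi * ∫ x, fn T S v n x : ℝ) : ℂ) := by
    intro n
    rw [hJ n, hval n]
    unfold muc
    push_cast
    ring
  rw [tsum_congr e2, ← Complex.ofReal_tsum, tsum_mul_left, key.tsum_eq]

end Pool.Agent.Y763.SJ
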